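import Pool.Agent.MP_255345_an.Bs.Met

/-! Shrinking of pull-backs and the measure theoretic part. -/

open Set Filter Topology Metric TopologicalSpace MeasureTheory Polynomial

namespace Pool.Agent.MP_255345_an.Bs

/-- The bundled structure of a compact locally connected metric space. -/
abbrev sp (X : Type) [MetricSpace X] [CompactSpace X] [LocallyConnectedSpace X] : Sp X where
  toTopologicalSpace := inferInstance
  cpt := inferInstance
  t2 := inferInstance
  lc := inferInstance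
  sc := inferInstance

variable {X : Type} [MetricSpace X] {f : X → X} {e : ℂ → X} {k : X} {P Q : ℂ[X]}

theorem uniq (he : IsOpenEmbedding e) {F : X → X} (hF : Continuous F) {φ : ℂ → ℂ} {y : ℂ} {R : ℝ}
    (hR : 0 < R) (d1 : DifferentiableOn ℂ φ (ball y R)) (d3 : ∀ u ∈ ball y R, F (e (φ u)) = e u)
    {W : Set X} (hW : IsPreconnected W) (h0 : e (φ y) ∈ W) (h1 : ∀ w ∈ W, F w ∈ e '' ball y R)
    {w : X} (hw : w ∈ W) {v : ℂ} (hv : F w = e v) : w = e (φ v) := by
  have hi : InjOn φ (ball y R) := fun u hu v hv e1 =>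
    he.injective (by rw [← d3 u hu, ← d3 v hv, e1])
  have h2 : W ⊆ e '' (φ '' ball y R) := by
    refine hW.subset_of_closure_inter_subset
      (he.isOpenMap _ (univ_isOpen_image isOpen_ball d1 hi isOpen_ball subset_rfl))
      ⟨_, h0, _, ⟨y, mem_ball_self hR, rfl⟩, rfl⟩ ?_
    rintro w ⟨h3, h4⟩
    obtain ⟨v, hv, e1⟩ := h1 w h4
    obtain ⟨s, s1, s2⟩ := mem_closure_iff_seq_limit.1 h3
    simp only [mem_image, exists_exists_and_eq_and] at s1
    choose u u1 u2 using s1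
    have h5 : Tendsto u atTop (𝓝 v) := he.isInducing.tendsto_nhds_iff.2 (by
      rw [e1]
      exact (hF.continuousAt.tendsto.comp s2).congr fun j => by
        rw [Function.comp_apply, Function.comp_apply, ← u2, d3 _ (u1 j)])
    exact ⟨_, ⟨v, hv, rfl⟩, tendsto_nhds_unique (he.continuous.continuousAt.tendsto.comp
      ((d1.continuousOn.continuousAt (isOpen_ball.mem_nhds hv)).tendsto.comp h5))
        (s2.congr fun j => (u2 j).symm)⟩
  obtain ⟨_, ⟨u, hu, rfl⟩, rfl⟩ := h2 hw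
  rw [d3 u hu] at hv
  rw [he.injective hv]

variable [CompactSpace X] [LocallyConnectedSpace X]

omit [LocallyConnectedSpace X] in
theorem inf_of (h : Ch f e k P Q) (D : Set X) (d1 : IsOpen D) (d2 : D.Nonempty) : D.Infinite :=
  fun h1 => h.not_nul d1 d2 (h.nul_finite h1)

theorem ush (h : Ch f e k P Q) (hB : Blow f) {Y : Set X} (hS : ∀ c ∈ Y, BS f c) (hY : IsClosed Y)
    (hfY : MapsTo f Y Y) (hc : ∀ c ∈ Y, ¬ IsCrit f c) (hk : k ∉ Y) : USH f Y := by
  obtain ⟨V, hV, hVc, hVK⟩ := exists_mem_nhds_isClosed_subset (hY.isOpen_compl.mem_nhds hk)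
  obtain ⟨η, η0, hη⟩ := hY.isCompact.exists_thickening_subset_open
    (hVc.isOpen_compl.inter h.crit.isClosed.isOpen_compl) fun x hx => ⟨fun h1 => hVK h1 hx, hc x hx⟩
  obtain ⟨δ₀, hδ₀, h2⟩ := BS.unif hY.isCompact hS η0
  have rg : Y ⊆ range e := fun x hx => h.ex fun e1 => hk (e1 ▸ hx)
  have hC : IsCompact (e ⁻¹' Y) := (h.emb.isInducing.isCompact_preimage_iff rg).2 hY.isCompact
  have dl : ∀ ε > 0, ∃ δ > 0, ∀ y ∈ e ⁻¹' Y, ∀ u ∈ ball y δ, e u ∈ ball (e y) ε := fun ε hε => by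
    obtain ⟨δ, h1, h3⟩ := Puz.delta h.emb.continuous isClosed_empty (W := {p | dist p.2 p.1 < ε})
      (isOpen_lt (by fun_prop) continuous_const) (fun p => by simpa using hε) hC fun _ _ h => h
    exact ⟨δ, h1, fun y hy u hu => (h3 y hy u hu).1⟩
  obtain ⟨δ, hδ, hδ'⟩ := dl δ₀ hδ₀
  obtain ⟨c, c0, c1, HR⟩ := rel_of_branch
  obtain ⟨ρ, ρ0, hρ⟩ := lebesgue_number_lemma_of_metric hY.isCompact
    (c := fun y : ℂ => e '' ball y (c * δ / 2)) (fun y => h.emb.isOpenMap _ isOpen_ball)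
    fun x hx => by
      obtain ⟨y, rfl⟩ := rg hx
      exact mem_iUnion.2 ⟨y, y, mem_ball_self (by positivity), rfl⟩
  refine ⟨ρ, ρ0, fun ε hε => ?_⟩
  obtain ⟨r₀, r0, hr₀⟩ := dl ε hε
  obtain ⟨t, -, ht, hcov⟩ := finite_cover_balls_of_compact hC (half_pos r0)
  obtain ⟨n₀, hn₀⟩ := eventually_atTop.1 ((eventually_all_finite ht).2 fun s _ =>
    show ∀ᶠ n in atTop, ∃ i ≤ n, ∃ u ∈ ball s (r₀ / 2), f^[i] (e u) ∈ V from by
      obtain ⟨x, x1, x2⟩ := (inf_of h _ isOpen_interior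
        ⟨k, mem_interior_iff_mem_nhds.2 hV⟩).exists_notMem_finite (hB (e '' ball s (r₀ / 2))
          (h.emb.isOpenMap _ isOpen_ball) ((nonempty_ball.2 (half_pos r0)).image e))
      obtain ⟨i, _, ⟨u, hu, rfl⟩, rfl⟩ := mem_iUnion.1 (not_notMem.1 x2)
      filter_upwards [eventually_ge_atTop i] with n hn using ⟨i, hn, u, hu, interior_subset x1⟩)
  refine ⟨n₀, fun n hn x hx w hw => ?_⟩
  obtain ⟨z, rfl⟩ := rg hx
  obtain ⟨y, hy⟩ := rg (hfY.iterate n hx)
  have hyC : y ∈ e ⁻¹' Y := by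
    rw [mem_preimage, hy]
    exact hfY.iterate n hx
  have h0 : f^[n] (e z) ∈ e '' ball y δ := ⟨y, mem_ball_self hδ, hy⟩
  have av : ∀ i ≤ n, ∀ w ∈ pb f n i (e '' ball y δ) (e z), w ∉ V ∧ ¬ IsCrit f w :=
    fun i hi w hw => hη (mem_thickening_iff.2 ⟨_, hfY.iterate i hx, h2 (n - i) _ (e y) hyC pb_conn
      (fun v hv => by
        obtain ⟨u, hu, e1⟩ := pb_sub hv
        exact e1 ▸ hδ' y hyC u hu) w hw _ (mem_pb h0 hi)⟩)
  have av' : ∀ w ∈ pb f n 0 (e '' ball y δ) (e z), ∀ i ≤ n, f^[i] w ∉ V := fun w hw i hi =>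
    (av i hi _ (pb_map h.cont i.zero_le hi hw)).1
  obtain ⟨φ, d1, rfl, d3⟩ := @br2 X (sp X) f e k P Q h n z y δ hδ hy.symm
    (fun w hw i hi e1 => av' w hw i hi (e1 ▸ mem_of_mem_nhds hV)) fun i hi c hc => (av i hi.le c hc).2
  obtain ⟨r, r1, hr⟩ := HR h.emb.injective hδ d1 d3
  have sb : e '' ball (φ y) r ⊆ pb f n 0 (e '' ball y δ) (e (φ y)) := sub_pb
    ((convex_ball _ _).isPreconnected.image _ h.emb.continuous.continuousOn)
    ⟨_, mem_ball_self r1, rfl⟩ (by rintro _ ⟨v, hv, rfl⟩; exact hr.1 v hv)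
  have r2 : r ≤ r₀ := not_lt.1 fun h3 => by
    obtain ⟨s, hs, hzs⟩ := mem_iUnion₂.1 (hcov hx)
    obtain ⟨i, hi, u, hu, h4⟩ := hn₀ n hn s hs
    exact av' _ (sb ⟨u, ball_subset_ball' (by linarith [mem_ball'.1 hzs]) hu, rfl⟩) i hi h4
  obtain ⟨y', hy'⟩ := hρ _ (hfY.iterate n hx)
  have sb' : ball (f^[n] (e (φ y))) ρ ⊆ e '' ball y (c * 1 ^ 1 * δ) := by
    obtain ⟨u, hu, e1⟩ := hy' (mem_ball_self ρ0)
    rw [← hy] at e1
    rw [h.emb.injective e1] at hu
    exact hy'.trans (image_mono (ball_subset_ball' (by linarith [mem_ball'.1 hu])))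
  obtain ⟨v, hv, e1⟩ := sb' (pb_sub hw)
  obtain ⟨u, hu, e2⟩ := hr.2 1 one_pos le_rfl v hv
  rw [one_mul] at hu
  have U := fun w hw => uniq h.emb (h.cont.iterate n) hδ d1 d3 (W := pb f n 0 (e '' ball y δ)
    (e (φ y))) pb_conn (mem_pb (i := 0) h0 n.zero_le) (fun w hw => pb_sub hw) (w := w) hw (v := v)
  rw [U w (pb_mono (sb'.trans (image_mono (ball_subset_ball (by nlinarith)))) hw) e1.symm,
    ← U _ (sb ⟨u, hu, rfl⟩) e2]
  exact hr₀ _ hx u (ball_subset_ball r2 hu)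

omit [LocallyConnectedSpace X] in
theorem no_super (h : Ch f e k P Q) (hB : Blow f) {c : X} {n : ℕ} (n0 : 0 < n) (hn : f^[n] c = c)
    (hk : k ∉ range fun i => f^[i] c) : ¬ IsCrit f c := by
  intro hc
  obtain ⟨V, hV, hVc, hVK⟩ := exists_mem_nhds_isClosed_subset
    ((orb_fin n0 hn).isClosed.isOpen_compl.mem_nhds hk)
  obtain ⟨u, rfl⟩ := h.ex fun h1 : c = k => hk ⟨0, h1⟩
  have ha := (h.iter (n := n) (u := u) fun i _ h1 => hk ⟨i, h1⟩).2
  have e1 : ∀ᶠ v in 𝓝 u, ∀ i ∈ Iic n, f^[i] (e v) ∉ V :=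
    (eventually_all_finite (finite_Iic n)).2 fun i _ =>
      ((h.cont.iterate i).comp h.emb.continuous).continuousAt
        (hVc.isOpen_compl.mem_nhds fun h1 => hVK h1 ⟨i, rfl⟩)
  have e2 := e1.mono fun v hv => (h.iter (n := n) (u := v) fun i hi e3 =>
    hv i hi (e3 ▸ mem_of_mem_nhds hV)).1
  generalize (fun z => P.eval z / Q.eval z)^[n] = g at ha e2
  have hu : g u = u := h.emb.injective (e2.self_of_nhds.symm.trans hn)
  by_cases hd : deriv g u = 0
  · have h1 := ha.differentiableAt.hasDerivAt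
    rw [hd] at h1
    obtain ⟨r, r0, hr⟩ := Metric.eventually_nhds_iff_ball.1
      (e1.and (e2.and ((hasDerivAt_iff_isLittleO.1 h1).bound one_pos)))
    have h2 : ∀ m, ∀ v ∈ ball u r, f^[m] (e v) ∉ V := fun m => by
      induction m using Nat.strong_induction_on with
      | _ m ih =>
        intro v hv
        rcases le_or_gt m n with h3 | h3
        · exact (hr v hv).1 m h3
        obtain ⟨m, rfl⟩ := Nat.exists_eq_add_of_le' h3.le
        rw [Function.iterate_add_apply, (hr v hv).2.1]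
        refine ih m (by omega) _ (mem_ball_iff_norm.2 (lt_of_le_of_lt ?_ (mem_ball_iff_norm.1 hv)))
        simpa [hu] using (hr v hv).2.2
    refine inf_of h _ isOpen_interior ⟨k, mem_interior_iff_mem_nhds.2 hV⟩ ((hB (e '' ball u r)
      (h.emb.isOpenMap _ isOpen_ball) ((nonempty_ball.2 r0).image e)).subset fun x hx h3 => ?_)
    obtain ⟨m, _, ⟨v, hv, rfl⟩, rfl⟩ := mem_iUnion.1 h3
    exact h2 m v hv (interior_subset hx)
  · have h1 := ha.hasStrictDerivAt.eventually_left_inverse hd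
    refine hc _ (h.emb.isOpenMap.image_mem_nhds (h1.and e2)) ?_
    rintro _ ⟨a, ⟨a1, a2⟩, rfl⟩ _ ⟨b, ⟨b1, b2⟩, rfl⟩ e3
    obtain ⟨n, rfl⟩ := Nat.exists_eq_add_of_le' (show 1 ≤ n from n0)
    rw [Function.iterate_succ_apply] at a2 b2
    rw [← a1, ← b1, h.emb.injective (a2.symm.trans (e3 ▸ b2))]

theorem full1 (h : Ch f e k P Q) (hB : Blow f) (hJ : ¬ Fat f) {K : Set X} (hk : k ∈ K) {a b : ℂ}
    (ha : e a ∈ K) (hb : e b ∈ K) (hab : a ≠ b) (hf : MapsTo f K K) {A : Set X} (hA : msb e A)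
    (hfA : MapsTo f A A) (hz : ∃ᵐ z, TC f K (e z) ∧ e z ∈ A) : nul e Aᶜ := by
  have con : ∀ z, TC f K (e z) → Con e f K z := by
    rintro z ⟨H, V, B, h1, h2, h3, h4⟩
    have rg : closure V ⊆ range e := fun x hx => h.ex fun e1 =>
      disjoint_left.1 h2 (h3 hx) (e1 ▸ hk)
    have hC : IsCompact (e ⁻¹' closure V) :=
      (h.emb.isInducing.isCompact_preimage_iff rg).2 isClosed_closure.isCompact
    obtain ⟨δ, δ0, hδ⟩ := Puz.delta h.emb.continuous h1.isClosed_compl isOpen_univ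
      (fun _ => trivial) hC fun y hy h5 => h5 (h3 hy)
    obtain ⟨c, m, c0, -, HI⟩ :=
      @stInd stUnb (stOne stUnb stDbl) X (sp X) f e k P Q K a h hk ha hf B
    refine ⟨δ, c, m, _, δ0, c0, hC, fun η hη => ?_⟩
    by_contra hc
    have key : ∀ n, ∀ x ∈ e '' ball z η, f^[n] x ∉ K := by
      rintro n₀ _ ⟨u, hu, rfl⟩
      obtain ⟨n, hn, n1, n2⟩ := h4 n₀
      obtain ⟨y, hy⟩ := rg (subset_closure n1)
      have hyC : y ∈ e ⁻¹' closure V := by
        rw [mem_preimage, hy]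
        exact subset_closure n1
      have sb : e '' ball y δ ⊆ H := by
        rintro _ ⟨v, hv, rfl⟩
        exact not_notMem.1 (hδ y hyC v hv).2
      have dj := h2.mono_left sb
      have h6 : cc f n (e '' ball y δ) (e z) ≤ cc f n H (e z) := by
        refine ncard_le_ncard ?_ (Ind.fin_idx n _)
        rintro i ⟨hi, c, c1, c2⟩
        exact ⟨hi, c, pb_mono sb c1, c2⟩
      obtain ⟨r, r0, hr⟩ := HI n z y δ δ0 hy.symm dj (h6.trans n2)
      have h5 : η ≤ r := not_lt.1 fun h5 => hc ⟨n, y, r, hyC, r0, h5, dj, hr⟩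
      exact avoid hf (disjoint_left.1 dj (hr.1 u (ball_subset_ball h5 hu))) hn
    exact hJ (@stMon stSch X (sp X) f e k P Q h _ a b (h.emb.isOpenMap _ isOpen_ball)
      ((nonempty_ball.2 hη).image e) hab fun n x hx =>
        ⟨fun e1 => key n x hx (e1 ▸ hk), fun e1 => key n x hx (e1 ▸ ha),
          fun e1 => key n x hx (e1 ▸ hb)⟩)
  have img : ∀ (n : ℕ) S, nul e S → nul e (f^[n] '' S) := fun n S hS => by
    induction n with
    | zero => simpa using hS
    | succ n ih =>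
      rw [Function.iterate_succ', image_comp]
      exact (@stNull X (sp X) f e k P Q h _).1 ih
  obtain ⟨z, ⟨h1, h2⟩, h3⟩ :=
    (hz.and_eventually (@stDen X (sp X) f e k P Q K A h hk hf hA hfA)).exists
  obtain ⟨D, d1, d2, d3⟩ := h3 h2 (con z h1)
  rw [nul_iff]
  filter_upwards [nul_iff.1 (h.nul_finite (hB D d1 d2)),
    ae_all_iff.2 fun n => nul_iff.1 (img n _ d3)] with w w1 w2 w3
  obtain ⟨n, x, hx, e1⟩ := mem_iUnion.1 (not_notMem.1 w1)
  exact w2 n ⟨x, ⟨hx, fun hxA => w3 (e1 ▸ hfA.iterate n hxA)⟩, e1⟩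

omit [LocallyConnectedSpace X] in
theorem erg_of (h : Ch f e k P Q) (hB : Blow f) {G : X → Prop}
    (full : ∀ A, msb e A → MapsTo f A A → (∃ᵐ z, G (e z) ∧ e z ∈ A) → nul e Aᶜ)
    (hG : ∃ᵐ z, G (e z)) (hd : ∀ x, om f x = univ → G x) : Erg e f := by
  let T : Set X → ℕ → Set X := fun U n => {x | ∀ m, n ≤ m → f^[m] x ∉ U}
  have Tc : ∀ U ∈ countableBasis X, ∀ n, IsClosed (T U n) := fun U hU n => by
    simp only [T, ofPred_forall]
    exact isClosed_iInter fun m => isClosed_iInter fun _ =>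
      (isOpen_of_mem_countableBasis hU).isClosed_compl.preimage (h.cont.iterate m)
  have Tm : ∀ U ∈ countableBasis X, ∀ n, MeasurableSet (e ⁻¹' T U n) := fun U hU n =>
    ((Tc U hU n).preimage h.emb.continuous).measurableSet
  have Tn : ∀ U ∈ countableBasis X, ∀ n, ∀ᵐ z, ¬ (G (e z) ∧ e z ∈ T U n) := by
    intro U hU n
    by_contra hc
    refine h.not_nul (Tc U hU n).isOpen_compl ?_ (full _ (Tm U hU n).nullMeasurableSet
      (fun x hx m hm => ?_) hc)
    · obtain ⟨u, hu, hu'⟩ := (inf_of h U (isOpen_of_mem_countableBasis hU)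
        (nonempty_of_mem_countableBasis hU)).exists_notMem_finite
          (hB _ (h.opn_iter n).isOpen_range ⟨_, k, rfl⟩)
      obtain ⟨j, _, ⟨x, rfl⟩, rfl⟩ := mem_iUnion.1 (not_notMem.1 hu')
      exact ⟨x, fun hx => hx (j + n) (by omega) (by rwa [Function.iterate_add_apply])⟩
    · exact hx (m + 1) (by omega)
  have Z := full {x | ∀ U ∈ countableBasis X, ∀ n, x ∉ T U n} ?_ ?_ ?_
  · intro A hA hfA
    refine or_iff_not_imp_left.2 fun h0 => full A hA hfA ?_
    rw [nul_iff] at h0 Z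
    refine ((not_eventually.1 h0).and_eventually Z).mono fun z hz =>
      ⟨hd _ (eq_univ_of_forall fun a => mem_om.2 fun V hV => ?_), not_not.1 hz.1⟩
    obtain ⟨U, hU, -, hUV⟩ := (isBasis_countableBasis X).mem_nhds_iff.1 hV
    refine frequently_atTop.2 fun n => ?_
    have := not_not.1 hz.2 U hU n
    simp only [T, mem_ofPred_eq, not_forall, not_not] at this
    obtain ⟨m, hm, h1⟩ := this
    exact ⟨m, hm, hUV h1⟩
  · refine MeasurableSet.nullMeasurableSet ?_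
    simp only [ofPred_forall, preimage_iInter]
    exact MeasurableSet.biInter (countable_countableBasis X) fun U hU =>
      MeasurableSet.iInter fun n => (Tm U hU n).compl
  · intro x hx U hU n h1
    refine hx U hU (n + 1) fun m hm => ?_
    obtain ⟨m, rfl⟩ := Nat.exists_eq_add_of_le' (by omega : 1 ≤ m)
    exact h1 m (by omega)
  · refine (hG.and_eventually ((ae_ball_iff (countable_countableBasis X)).2 fun U hU =>
      ae_all_iff.2 (Tn U hU))).mono fun z hz => ⟨hz.1, fun U hU n h1 => hz.2 U hU n ⟨hz.1, h1⟩⟩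

end Pool.Agent.MP_255345_an.Bs
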