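import Pool.Agent.MP_255345_an.Defs

/-! Backward stability and shrinking of pull-backs on the sphere. -/

namespace Pool.Agent.MP_255345_an

/-- Backward stability at `c`: for every `η` there is `δ` such that every component of every
preimage `f⁻ⁿ B(c, δ)` of the chordal ball of radius `δ` has chordal diameter at most `η`. -/
def Stable (f : OnePoint ℂ → OnePoint ℂ) (c : OnePoint ℂ) : Prop :=
  ∀ η > 0, ∃ δ > 0, ∀ (n : ℕ) (x : OnePoint ℂ),
    ∀ y ∈ connectedComponentIn {w | chord c (f^[n] w) < δ} x, chord x y < η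

/-- The pull-backs of balls of a fixed radius `ρ` shrink uniformly along the orbit of `a`. -/
def Shrinks (f : OnePoint ℂ → OnePoint ℂ) (a : OnePoint ℂ) : Prop :=
  ∃ ρ > 0, ∀ ε > 0, ∃ n₀ : ℕ, ∀ n ≥ n₀, ∀ i : ℕ,
    ∀ y ∈ connectedComponentIn {w | chord (f^[n] (f^[i] a)) (f^[n] w) < ρ} (f^[i] a),
      chord (f^[i] a) y < ε

end Pool.Agent.MP_255345_an
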