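import Pool.Agent.MP_255345_an.Bs.Ana
import Pool.Agent.MP_255345_an.Bs.Defs

/-! The dichotomy for backward stable rational maps. -/

open Set Filter Topology Metric TopologicalSpace MeasureTheory Polynomial

namespace Pool.Agent.MP_255345_an.Bs

theorem fixed (f : OnePoint ℂ → OnePoint ℂ) (P Q : ℂ[X]) (hf : Continuous f)
    (hPQ : IsCoprime P Q) (hd : 2 ≤ max P.natDegree Q.natDegree)
    (hr : ∀ z : ℂ, Q.eval z ≠ 0 → f z = ((P.eval z / Q.eval z : ℂ) : OnePoint ℂ)) :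
    ∃ p, f p = p := by
  by_cases h : ∃ z, (P - X * Q).IsRoot z
  · obtain ⟨z, hz⟩ := h
    rw [IsRoot, eval_sub, eval_mul, eval_X, sub_eq_zero] at hz
    have h1 : Q.eval z ≠ 0 := fun h1 => by
      obtain ⟨a, b, h2⟩ := hPQ
      have := congrArg (eval z) h2
      simp [hz, h1] at this
    exact ⟨z, by rw [hr z h1, hz, mul_div_cancel_right₀ _ h1]⟩
  have h1 := eq_C_of_degree_le_zero (not_lt.1 fun h1 => h (Complex.exists_root h1))
  set c := (P - X * Q).coeff 0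
  have h2 : P = X * Q + C c := by rw [← h1]; ring
  have h3 : 0 < Q.degree := by
    rw [← natDegree_pos_iff_degree_pos]
    by_contra h3
    have h4 : P.natDegree ≤ 1 := by
      rw [h2, natDegree_add_C]
      exact natDegree_mul_le.trans (by rw [natDegree_X]; omega)
    omega
  have t1 : Tendsto (fun z : ℂ => ‖z‖) (cocompact ℂ) atTop := tendsto_norm_cocompact_atTop
  have t2 := (Q.tendsto_norm_atTop h3 t1).eventually_ge_atTop 1
  have t3 : Tendsto (fun z : ℂ => P.eval z / Q.eval z) (cocompact ℂ) (cocompact ℂ) := by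
    rw [← Metric.cobounded_eq_cocompact (α := ℂ), ← tendsto_norm_atTop_iff_cobounded,
      Metric.cobounded_eq_cocompact]
    refine tendsto_atTop_mono' _ ?_ (tendsto_atTop_add_const_right _ (-‖c‖) t1)
    filter_upwards [t2] with z hz
    have h4 : Q.eval z ≠ 0 := norm_pos_iff.1 (one_pos.trans_le hz)
    have h5 : P.eval z / Q.eval z = z + c / Q.eval z := by
      rw [h2, eval_add, eval_mul, eval_X, eval_C]
      field_simp
    have h6 : ‖c / Q.eval z‖ ≤ ‖c‖ := by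
      rw [norm_div]
      exact div_le_self (norm_nonneg _) hz
    have h7 := norm_sub_le (z + c / Q.eval z) (c / Q.eval z)
    rw [add_sub_cancel_right] at h7
    rw [h5]
    linarith
  have t4 : Tendsto (fun z : ℂ => (z : OnePoint ℂ)) (cocompact ℂ) (𝓝 OnePoint.infty) := by
    rw [← coclosedCompact_eq_cocompact]
    exact OnePoint.tendsto_coe_infty
  refine ⟨OnePoint.infty, tendsto_nhds_unique (hf.continuousAt.tendsto.comp t4)
    ((t4.comp t3).congr' ?_)⟩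
  filter_upwards [t2] with z hz
  exact (hr z (norm_pos_iff.1 (one_pos.trans_le hz))).symm

theorem two (f : OnePoint ℂ → OnePoint ℂ) (P Q : ℂ[X]) (hPQ : IsCoprime P Q)
    (hd : 2 ≤ max P.natDegree Q.natDegree)
    (hr : ∀ z : ℂ, Q.eval z ≠ 0 → f z = ((P.eval z / Q.eval z : ℂ) : OnePoint ℂ)) :
    {y | (f ⁻¹' {y}).Subsingleton}.Finite := by
  have h1 : derivative P * Q - P * derivative Q ≠ 0 := fun e => by
    have e1 := sub_eq_zero.1 e
    have e2 := Fin.deg_of (hPQ.dvd_of_dvd_mul_right (Dvd.intro _ e1.symm))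
    have e3 := Fin.deg_of (hPQ.symm.dvd_of_dvd_mul_left (Dvd.intro_left _ e1))
    omega
  set d := max P.natDegree Q.natDegree with hd'
  have h2 : C (P.coeff d) - X * C (Q.coeff d) ≠ 0 := fun e => by
    have e0 := congrArg (coeff · 0) e
    have e1 := congrArg (coeff · 1) e
    simp [coeff_C] at e0 e1
    rcases max_choice P.natDegree Q.natDegree with h | h
    · rw [hd', h, coeff_natDegree, leadingCoeff_eq_zero] at e0
      rw [hd', h, e0] at hd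
      simp at hd
    · rw [hd', h, coeff_natDegree, leadingCoeff_eq_zero] at e1
      rw [hd', h, e1] at hd
      simp at hd
  have h3 := Fin.fin_of (S := {y | ∀ z : ℂ, (z : OnePoint ℂ) = y →
    (derivative P * Q - P * derivative Q).eval z = 0}) h1 fun z hz => hz z rfl
  refine ((h3.image f).toFinset.finite_toSet.union (Fin.fin_of (S := {y | ∀ z : ℂ,
    (z : OnePoint ℂ) = y → (C (P.coeff d) - X * C (Q.coeff d)).eval z = 0}) h2
      fun z hz => hz z rfl)).subset fun y hy => ?_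
  by_contra hc
  rw [mem_union, not_or, Finite.coe_toFinset] at hc
  obtain ⟨h4, h5⟩ := hc
  simp only [mem_ofPred_eq, not_forall] at h5
  obtain ⟨w, rfl, h5⟩ := h5
  have h6 : 2 ≤ (P - C w * Q).natDegree := hd.trans (le_natDegree_of_ne_zero
    (by rw [coeff_sub, coeff_C_mul, mul_comm]; simpa using h5))
  have val : ∀ z, (P - C w * Q).eval z = 0 → f z = w := fun z hz => by
    rw [eval_sub, eval_mul, eval_C, sub_eq_zero] at hz
    have h7 : Q.eval z ≠ 0 := fun h7 => by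
      obtain ⟨a, b, h8⟩ := hPQ
      have := congrArg (eval z) h8
      simp [hz, h7] at this
    rw [hr z h7, hz, mul_div_cancel_right₀ _ h7]
  obtain ⟨z, hz⟩ := Complex.exists_root (natDegree_pos_iff_degree_pos.1 (two_pos.trans_le h6))
  obtain ⟨R, hR⟩ := dvd_iff_isRoot.2 hz
  have h7 : 0 < R.natDegree := by
    have := natDegree_mul_le (p := X - C z) (q := R)
    rw [← hR, natDegree_X_sub_C] at this
    omega
  obtain ⟨u, hu⟩ := Complex.exists_root (natDegree_pos_iff_degree_pos.1 h7)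
  obtain rfl : u = z := OnePoint.coe_injective (hy (val u (by rw [hR, eval_mul, hu.eq_zero,
    mul_zero])) (val z hz))
  refine h4 ⟨u, fun z hz' => ?_, val u hz⟩
  obtain rfl := OnePoint.coe_injective hz'
  have h8 := congrArg (fun p => (derivative p).eval z) hR
  have h9 := hz.eq_zero
  simp [hu.eq_zero, sub_eq_zero] at h8 h9
  simp [h8, h9]
  ring

/-- The chordal metric. -/
noncomputable abbrev met : MetricSpace (OnePoint ℂ) :=
  (Uni.stereo_cont.isClosedEmbedding Uni.stereo_inj).isEmbedding.comapMetricSpace stereo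

attribute [local instance] met

theorem dc (u v : OnePoint ℂ) : chord u v = dist u v := rfl

theorem bs_of {f : OnePoint ℂ → OnePoint ℂ} (c : OnePoint ℂ) (hS : Stable f c) : BS f c :=
  fun η hη => by
  obtain ⟨δ, hδ, h⟩ := hS η hη
  refine ⟨δ, hδ, fun n W hW h1 x hx y hy => ?_⟩
  rw [← dc]
  refine h n x y (hW.subset_connectedComponentIn hx (fun w hw => ?_) hy)
  rw [mem_ofPred_eq, dc]
  exact mem_ball'.1 (h1 w hw)

theorem ush_of {f : OnePoint ℂ → OnePoint ℂ} (a : OnePoint ℂ) (h : Shrinks f a) :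
    USH f (range fun i => f^[i] a) := by
  obtain ⟨ρ, h0, h⟩ := h
  refine ⟨ρ, h0, fun ε hε => (h ε hε).imp fun n₀ h1 n hn => ?_⟩
  rintro _ ⟨i, rfl⟩ y hy
  rw [mem_ball', ← dc]
  refine h1 n hn i y (connectedComponentIn_mono _ (fun w hw => ?_) hy)
  rw [mem_preimage, mem_ball', ← dc] at hw
  exact hw

theorem main (f : OnePoint ℂ → OnePoint ℂ) (P Q : ℂ[X]) (hf : Continuous f) (hQ : Q ≠ 0)
    (hPQ : IsCoprime P Q) (hd : 2 ≤ max P.natDegree Q.natDegree)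
    (hr : ∀ z : ℂ, Q.eval z ≠ 0 → f z = ((P.eval z / Q.eval z : ℂ) : OnePoint ℂ))
    (hJ : ¬ Fat f)
    (hn : ¬ ∀ᵐ z : ℂ, ∀ Y ⊆ om f z, Y.Nonempty → IsClosed Y → MapsTo f Y Y →
      ((∀ c ∈ Y, Stable f c) → ∃ c ∈ Y, IsCrit f c) ∧
        ∀ a ∈ om f z, Stable f a → Shrinks f a → a ∈ Y ∧ ∃ c ∈ Y, IsCrit f c) :
    (∃ P' Q', Ch f (ek 0) ((0 : ℂ) : OnePoint ℂ) P' Q') ∧ Blow f ∧ Erg (ek 0) f := by
  have := stTop.1
  obtain ⟨f1, f2⟩ := stFin f P Q hQ hPQ hd hr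
  have r1 := stRat stEmb f P Q hf hQ hr f1
  have ho := stOpen stEmb f hf f1 r1
  have ch : ∀ k : ℂ, ∃ P' Q', Ch f (ek k) k P' Q' := fun k =>
    let ⟨P', Q', h⟩ := r1 k
    ⟨P', Q', hf, ho, f1, f2, (stEmb k).1, (stEmb k).2.1, h⟩
  have fin : ∀ S : Set (OnePoint ℂ), S.Infinite → ∃ k : ℂ, (k : OnePoint ℂ) ∈ S := fun S hS => by
    obtain ⟨x, hx, hx'⟩ := hS.exists_notMem_finite (finite_singleton OnePoint.infty)
    obtain ⟨k, rfl⟩ := OnePoint.ne_infty_iff_exists.1 hx'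
    exact ⟨k, hx⟩
  obtain ⟨p, hp⟩ := fixed f P Q hf hPQ hd hr
  have hs : Function.Surjective f := range_eq_univ.1
    (IsClopen.eq_univ ⟨hf.isClosedMap.isClosed_range, ho.isOpen_range⟩ ⟨_, p, rfl⟩)
  have hB : Blow f := fun D hD hn => by
    by_contra hc
    obtain ⟨k, hk⟩ := fin _ hc
    obtain ⟨P', Q', h⟩ := ch k
    obtain ⟨a, ha, ha'⟩ := Set.Infinite.exists_notMem_finite hc (finite_singleton (k : OnePoint ℂ))
    obtain ⟨b, hb, hb'⟩ := Set.Infinite.exists_notMem_finite hc (toFinite {(k : OnePoint ℂ), a})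
    obtain ⟨a, rfl⟩ := h.ex ha'
    obtain ⟨b, rfl⟩ := h.ex fun h1 => hb' (Or.inl h1)
    have key : ∀ y ∈ (⋃ n, f^[n] '' D)ᶜ, ∀ n, ∀ x ∈ D, f^[n] x ≠ y := fun y hy n x hx e1 =>
      hy (mem_iUnion.2 ⟨n, x, hx, e1⟩)
    exact hJ (@stMon stSch _ (sp _) f _ _ P' Q' h D a b hD hn
      (fun e1 => hb' (Or.inr (by rw [e1]; rfl)))
      fun n x hx => ⟨key _ hk n x hx, key _ ha n x hx, key _ hb n x hx⟩)
  have sh := @ush_of f
  have bs := @bs_of f
  obtain ⟨P₀, Q₀, h₀⟩ := ch 0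
  have hi := inf_of h₀
  have e0 := (stEmb 0).2.2.1
  have out : ∀ K : Set (OnePoint ℂ), IsClosed K → K ≠ univ → ∃ k : ℂ, (k : OnePoint ℂ) ∉ K :=
    fun K hK hK' => fin Kᶜ (hi _ hK.isOpen_compl (nonempty_compl.2 hK'))
  have us : ∀ Y, IsClosed Y → MapsTo f Y Y → (∀ c ∈ Y, BS f c) → (∀ c ∈ Y, ¬ IsCrit f c) →
      Y ≠ univ → USH f Y := fun Y h1 h2 h0 h3 h4 =>
    let ⟨k, hk⟩ := out Y h1 h4
    let ⟨_, _, h⟩ := ch k
    ush h hB h0 h1 h2 h3 hk
  have nf : ∀ Y : Set (OnePoint ℂ), Y.Finite → Y ≠ univ := fun Y hY h =>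
    hi univ isOpen_univ ⟨p, trivial⟩ (h ▸ hY)
  have ns : ∀ n c, 0 < n → f^[n] c = c → ¬ IsCrit f c := fun n c n0 hc =>
    let ⟨k, hk⟩ := out _ (orb_fin n0 hc).isClosed (nf _ (orb_fin n0 hc))
    let ⟨_, _, h⟩ := ch k
    no_super h hB n0 hc hk
  obtain ⟨p₁, q1, q2⟩ : ∃ p₁, p₁ ≠ p ∧ f p₁ = p := by
    by_contra h1
    push Not at h1
    have h2 := ns 1 p one_pos hp
    simp only [IsCrit, not_forall, not_not] at h2
    obtain ⟨U, hU, h2⟩ := h2
    have h3 := hf.isClosedMap _ (isOpen_interior (s := U)).isClosed_compl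
    refine hi _ h3.isOpen_compl ⟨p, ?_⟩ ((two f P Q hPQ hd hr).subset fun y hy u hu v hv => ?_)
    · rintro ⟨u, hu, h4⟩
      exact h1 u (fun h5 => hu (h5 ▸ mem_interior_iff_mem_nhds.2 hU)) h4
    · exact h2 (interior_subset (not_notMem.1 fun h4 => hy ⟨u, h4, hu⟩))
        (interior_subset (not_notMem.1 fun h4 => hy ⟨v, h4, hv⟩)) (hu.trans hv.symm)
  obtain ⟨K, k1, k2, k3, k4⟩ := triple hs hp q1 q2
  have L : ∀ᵐ z, ∀ m, f^[m] (ek 0 z) ≠ p := ae_all_iff.2 fun m => nul_iff.1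
    (h₀.nul_finite (S := f^[m] ⁻¹' {p}) (by
      induction m with
      | zero => exact finite_singleton p
      | succ m ih => exact ih.preimage' fun y _ => f1 y))
  have full : ∀ A, msb (ek 0) A → MapsTo f A A → (∃ᵐ z, Cn f (ek 0 z) ∧ ek 0 z ∈ A) →
      nul (ek 0) Aᶜ := by
    intro A hA hfA hz
    by_contra hc
    refine hz ?_
    have h1 : ∀ U ∈ countableBasis (OnePoint ℂ), ∀ᵐ z,
        ¬ (Three (av f U) ∧ TC f (av f U) (ek 0 z) ∧ ek 0 z ∈ A) := fun U _ => by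
      by_cases h3 : Three (av f U)
      swap
      · exact Eventually.of_forall fun z h => h3 h.1
      obtain ⟨k, hk, u, hu, v, hv, h4, h5, h6⟩ : ∃ k : ℂ, (k : OnePoint ℂ) ∈ av f U ∧
          ∃ u ∈ av f U, ∃ v ∈ av f U, u ≠ k ∧ v ≠ k ∧ u ≠ v := by
        obtain ⟨a, ha, b, hb, c, hc, h4, h5, h6⟩ := h3
        by_cases h7 : a = OnePoint.infty
        · obtain ⟨k, rfl⟩ := OnePoint.ne_infty_iff_exists.1 (h7 ▸ h4.symm : b ≠ OnePoint.infty)
          exact ⟨k, hb, a, ha, c, hc, h4, h6.symm, h5⟩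
        · obtain ⟨k, rfl⟩ := OnePoint.ne_infty_iff_exists.1 h7
          exact ⟨k, ha, b, hb, c, hc, h4.symm, h5.symm, h6⟩
      obtain ⟨P', Q', h⟩ := ch k
      obtain ⟨a, rfl⟩ := h.ex h4
      obtain ⟨b, rfl⟩ := h.ex h5
      obtain ⟨-, -, e1, e2⟩ := stEmb k
      by_contra h7
      refine hc ?_
      have h8 := full1 h hB hJ hk hu hv (fun e3 => h6 (by rw [e3])) (fun x hx n => hx (n + 1))
        ((e2 A).2 (((stEmb 0).2.2.2 A).1 hA)) hfA fun h8 => h7 (by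
          rw [e0 fun x => ¬ (Three (av f U) ∧ TC f (av f U) x ∧ x ∈ A)]
          exact ((e1 fun x => ¬ (TC f (av f U) x ∧ x ∈ A)).1 h8).mono fun z h9 h10 => h9 h10.2)
      rw [nul_iff, e1 (· ∉ Aᶜ)] at h8
      rwa [nul_iff, e0 (· ∉ Aᶜ)]
    filter_upwards [(ae_ball_iff (countable_countableBasis _)).2 h1] with z h2
    rintro ⟨⟨U, hU, h3, h4⟩, h5⟩
    exact h2 U hU ⟨h3, h4, h5⟩
  have key1 : ∀ Y : Set (OnePoint ℂ), Y.Nonempty → IsClosed Y → MapsTo f Y Y → ∀ x,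
      Y ⊆ om f x → (∀ m, f^[m] x ≠ p) → ∀ a ∈ om f x, BS f a → USH f (range fun i => f^[i] a) →
      ¬ (a ∈ Y ∧ ∃ c ∈ Y, IsCrit f c) → Cn f x := by
    rintro Y ⟨q, hq⟩ h1 h2 x h3 h4 a a1 a2 a3 a4
    by_cases h7 : ∃ n, 0 < n ∧ f^[n] a = a
    · obtain ⟨n, n0, hn⟩ := h7
      exact cn_per hf ho f1 f2 k1 k2 k3 k4 n0 hn a2 a3 (fun i => ns n _ n0 (by
        rw [← Function.iterate_add_apply, add_comm, Function.iterate_add_apply, hn])) a1 h4
    by_cases h8 : a ∈ Y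
    · exact conical hf f2 hp k1 k2 k3 k4 h1 h2 (fun c c1 c2 => a4 ⟨h8, c, c1, c2⟩) h3 h8 a2 a3
        fun n n0 hn => h7 ⟨n, n0, hn⟩
    · exact conical' hf f2 hp k1 k2 k3 k4 h1 h2 hq h3 a1 h8 a2 a3 fun n n0 hn => h7 ⟨n, n0, hn⟩
  have key2 : ∀ Y : Set (OnePoint ℂ), Y ≠ univ → Y.Nonempty → IsClosed Y → MapsTo f Y Y → ∀ x,
      Y ⊆ om f x → (∀ m, f^[m] x ≠ p) → (∀ c ∈ Y, Stable f c ∧ ¬ IsCrit f c) → Cn f x := by
    rintro Y h0 ⟨a, ha⟩ h1 h2 x h3 h4 h5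
    refine key1 Y ⟨a, ha⟩ h1 h2 x h3 h4 a (h3 ha) (bs a (h5 a ha).1) ((us Y h1 h2
      (fun c hc => bs c (h5 c hc).1) (fun c hc => (h5 c hc).2) h0).mono ?_)
        fun ⟨_, c, c1, c2⟩ => (h5 c c1).2 c2
    rintro _ ⟨i, rfl⟩
    exact h2.iterate i ha
  have key : ∀ Y : Set (OnePoint ℂ), Y.Nonempty → IsClosed Y → MapsTo f Y Y → ∀ x, Y ⊆ om f x →
      ((∀ c ∈ Y, Stable f c ∧ ¬ IsCrit f c) ∨ ∃ a ∈ om f x, Stable f a ∧ Shrinks f a ∧
        ¬ (a ∈ Y ∧ ∃ c ∈ Y, IsCrit f c)) → Cn f x ∨ ∃ m, f^[m] x = p := by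
    intro Y h0 h1 h2 x h3 h5
    refine or_iff_not_imp_right.2 fun h4 => ?_
    push Not at h4
    obtain h5 | ⟨b, b1, b2, b3, b4⟩ := h5
    · by_cases h6 : Y = univ
      · subst h6
        exact key2 {p} (nf _ (finite_singleton p)) ⟨p, rfl⟩ isClosed_singleton
          (fun y hy => by rw [mem_singleton_iff.1 hy]; exact hp) x ((subset_univ _).trans h3) h4
          fun c _ => h5 c trivial
      · exact key2 Y h6 h0 h1 h2 x h3 h4 h5
    · exact key1 Y h0 h1 h2 x h3 h4 b b1 (bs b b2) (sh b b3) b4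
  have bad : ∃ᵐ z : ℂ, ∃ Y ⊆ om f z, Y.Nonempty ∧ IsClosed Y ∧ MapsTo f Y Y ∧
      ((∀ c ∈ Y, Stable f c ∧ ¬ IsCrit f c) ∨ ∃ a ∈ om f z, Stable f a ∧ Shrinks f a ∧
        ¬ (a ∈ Y ∧ ∃ c ∈ Y, IsCrit f c)) :=
    (not_eventually.1 hn).mono fun z hz => by
      by_contra h1
      refine hz fun Y y1 y2 y3 y4 => ⟨fun h0 => by_contra fun h2 => h1 ⟨Y, y1, y2, y3, y4,
        Or.inl fun c c1 => ⟨h0 c c1, fun c2 => h2 ⟨c, c1, c2⟩⟩⟩, fun a a1 a2 a3 =>
          by_contra fun h2 => h1 ⟨Y, y1, y2, y3, y4, Or.inr ⟨a, a1, a2, a3, h2⟩⟩⟩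
  obtain ⟨z, Y, -, y2, y3, y4, y5⟩ := bad.exists
  refine ⟨⟨P₀, Q₀, h₀⟩, hB, erg_of (G := fun x => Cn f x ∨ ∃ m, f^[m] x = p) h₀ hB
    (fun A hA hfA hz => full A hA hfA ((hz.and_eventually L).mono fun z h1 =>
      ⟨h1.1.1.resolve_right fun ⟨m, hm⟩ => h1.2 m hm, h1.1.2⟩)) (fun h1 => ?_) fun x hx =>
    key Y y2 y3 y4 x (hx ▸ subset_univ _)
      (y5.imp_right fun ⟨a, _, a2⟩ => ⟨a, hx ▸ mem_univ a, a2⟩)⟩
  obtain ⟨z, ⟨Y, y1, y2, y3, y4, y5⟩, h3⟩ :=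
    (bad.and_eventually ((e0 fun x => ¬ (Cn f x ∨ ∃ m, f^[m] x = p)).1 h1)).exists
  exact h3 (key Y y2 y3 y4 z y1 y5)

end Pool.Agent.MP_255345_an.Bs
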