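import Pool.Agent.MP_255345_an.Bs.Top

/-! Points that accumulate on an invariant set without critical points are conical. -/

open Set Filter Topology Metric TopologicalSpace

namespace Pool.Agent.MP_255345_an.Bs

variable {X : Type} [MetricSpace X] {f : X → X}

/-- Backward stability at a point. -/
def BS (f : X → X) (c : X) : Prop :=
  ∀ η > 0, ∃ δ > 0, ∀ (n : ℕ) (W : Set X), IsPreconnected W →
    (∀ w ∈ W, f^[n] w ∈ ball c δ) → ∀ x ∈ W, ∀ y ∈ W, dist x y < η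

/-- Pull-backs along the orbits of `Y` shrink uniformly. -/
def USH (f : X → X) (Y : Set X) : Prop :=
  ∃ ρ > 0, ∀ ε > 0, ∃ n₀, ∀ n, n₀ ≤ n → ∀ x ∈ Y, pb f n 0 (ball (f^[n] x) ρ) x ⊆ ball x ε

/-- Points whose orbit misses `U`. -/
def av (f : X → X) (U : Set X) : Set X := {x | ∀ n, f^[n] x ∉ U}

/-- At least three points. -/
def Three (K : Set X) : Prop := ∃ a ∈ K, ∃ b ∈ K, ∃ c ∈ K, a ≠ b ∧ a ≠ c ∧ b ≠ c

theorem BS.back (hf : Continuous f) {b : X} (n : ℕ) (h : BS f (f^[n] b)) : BS f b := fun η hη => by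
  obtain ⟨δ, hδ, h1⟩ := h η hη
  obtain ⟨r, r0, hr⟩ := Metric.continuousAt_iff.1 (hf.iterate n).continuousAt δ hδ
  refine ⟨r, r0, fun m W hW h2 => h1 (n + m) W hW fun w hw => ?_⟩
  rw [Function.iterate_add_apply]
  exact hr (h2 w hw)

theorem BS.unif {Y : Set X} (hY : IsCompact Y) (h : ∀ c ∈ Y, BS f c) {η : ℝ} (hη : 0 < η) :
    ∃ δ > 0, ∀ (n : ℕ) (W : Set X), ∀ c ∈ Y, IsPreconnected W →
      (∀ w ∈ W, f^[n] w ∈ ball c δ) → ∀ x ∈ W, ∀ y ∈ W, dist x y < η := by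
  choose δ h1 h2 using fun c : Y => h c c.2 η hη
  obtain ⟨r, r0, hr⟩ := lebesgue_number_lemma_of_metric hY (c := fun c : Y => ball (c : X) (δ c))
    (fun _ => isOpen_ball) fun x hx => mem_iUnion.2 ⟨⟨x, hx⟩, mem_ball_self (h1 _)⟩
  refine ⟨r, r0, fun n W c hc hW h3 => ?_⟩
  obtain ⟨c', h4⟩ := hr c hc
  exact h2 c' n W hW fun w hw => h4 (h3 w hw)

theorem USH.mono {Y Z : Set X} (h : USH f Y) (hZ : Z ⊆ Y) : USH f Z :=
  let ⟨ρ, h0, h1⟩ := h
  ⟨ρ, h0, fun ε hε => (h1 ε hε).imp fun _ h2 n hn x hx => h2 n hn x (hZ hx)⟩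

theorem USH.ins (hf : Continuous f) {Y : Set X} (h : USH f Y) {b : X} (hS : BS f (f b))
    (hb : f b ∈ Y) : USH f (insert b Y) := by
  obtain ⟨ρ, h0, h1⟩ := h
  refine ⟨ρ, h0, fun ε hε => ?_⟩
  obtain ⟨δ, hδ, h2⟩ := hS ε hε
  obtain ⟨n₁, h3⟩ := h1 ε hε
  obtain ⟨n₂, h4⟩ := h1 δ hδ
  refine ⟨n₁ + n₂ + 1, fun n hn x hx => ?_⟩
  rcases hx with rfl | hx
  swap
  · exact h3 n (by omega) x hx
  obtain ⟨n, rfl⟩ := Nat.exists_eq_add_of_le' (show 1 ≤ n by omega)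
  refine fun w hw => h2 1 _ pb_conn (fun v hv => h4 n (by omega) _ hb ?_) w hw x
    (mem_pb (i := 0) (mem_ball_self h0) (Nat.zero_le _))
  have h5 := pb_map hf zero_le_one (Nat.le_add_left 1 n) hv
  rw [← zero_add 1, pb_shift] at h5
  exact h5

theorem nice [LocallyConnectedSpace X] (hf : Continuous f) {Y : Set X} (h : USH f Y)
    (hY : MapsTo f Y Y) {a : X} (hS : BS f a) (ha : a ∈ Y) (hp : ∀ n, 0 < n → f^[n] a ≠ a) {U : Set X}
    (hU : U ∈ 𝓝 a) : ∃ O H V, Cpl f O H V ∧ a ∈ V ∧ H ⊆ U := by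
  obtain ⟨ρ, h0, h1⟩ := h
  obtain ⟨n₀, hn₀⟩ := h1 (ρ / 8) (by positivity)
  obtain ⟨δ, hδ, h2⟩ := hS (ρ / 4) (by positivity)
  have e1 : ∀ᶠ ε in 𝓝[>] (0 : ℝ), ∀ n ∈ Iio n₀, 0 < n → ∀ u ∈ ball a ε, f^[n] u ∉ ball a ε := by
    refine (eventually_all_finite (finite_Iio n₀)).2 fun n _ => ?_
    by_cases hn : 0 < n
    swap
    · exact Eventually.of_forall fun _ h => (hn h).elim
    have d0 : 0 < dist (f^[n] a) a / 2 := half_pos (dist_pos.2 (hp n hn))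
    obtain ⟨r, r0, hr⟩ := Metric.continuousAt_iff.1 (hf.iterate n).continuousAt _ d0
    filter_upwards [Ioo_mem_nhdsGT (lt_min r0 d0)] with ε hε _ u hu h3
    have h4 := hr (hu.trans (hε.2.trans_le (min_le_left _ _)))
    have h5 := h3.trans (hε.2.trans_le (min_le_right _ _))
    linarith [dist_triangle_left (f^[n] a) a (f^[n] u)]
  obtain ⟨r, r0, hr⟩ := Metric.mem_nhds_iff.1 hU
  obtain ⟨ε, ⟨ε0, ε1⟩, hε⟩ := (Eventually.and (p := fun ε => ε ∈ Ioo 0 (min r δ))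
    (Ioo_mem_nhdsGT (lt_min r0 hδ)) e1).exists
  obtain ⟨m, hm⟩ := h1 ε ε0
  have hG := hm m le_rfl a ha
  let E : ℝ → Set X := fun t => pb f m 0 (ball (f^[m] a) t) a
  have mem : ∀ t, 0 < t → a ∈ E t := fun t ht => mem_pb (i := 0) (mem_ball_self ht) m.zero_le
  have mono : ∀ {s t}, s ≤ t → E s ⊆ E t := fun h => pb_mono (ball_subset_ball h)
  have cr : ∀ t, 0 < t → t ≤ ρ → Cross f (E ρ) (E t) (E (t + ρ / 4)) := by
    rintro t t0 t1 n W hn hW h3 ⟨u, hu, hu'⟩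
    have key : ∀ w ∈ W, dist (f^[m] w) (f^[m] u) < ρ / 4 := fun w hw => by
      rcases le_or_gt m n with h4 | h4
      · refine h2 (n - m) (f^[m] '' W) (hW.image _ (hf.iterate m).continuousOn) ?_ _
          ⟨w, hw, rfl⟩ _ ⟨u, hu, rfl⟩
        rintro _ ⟨v, hv, rfl⟩
        rw [iter_iter h4]
        exact ball_subset_ball (ε1.le.trans (min_le_right _ _)) (hG (h3 v hv))
      rcases le_or_gt n₀ n with h5 | h5
      · obtain ⟨j, rfl⟩ := Nat.exists_eq_add_of_le h4.le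
        have h6 : ∀ v ∈ W, f^[n + j] v ∈ ball (f^[j] a) (ρ / 8) := fun v hv => by
          have h7 := pb_map hf j.zero_le (Nat.le_add_left j n) (h3 v hv)
          rw [Nat.sub_zero, ← Function.iterate_add_apply, add_comm j n,
            Function.iterate_add_apply f n j a] at h7
          nth_rw 2 [← zero_add j] at h7
          rw [pb_shift] at h7
          exact hn₀ n h5 _ (hY.iterate j ha) h7
        have := mem_ball.1 (h6 w hw)
        have := mem_ball.1 (h6 u hu)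
        linarith [dist_triangle_right (f^[n + j] w) (f^[n + j] u) (f^[j] a)]
      · exact (hε n h5 hn u (hG (mono t1 hu')) (hG (h3 u hu))).elim
    refine subset_union_left.trans (sub_pb (i := 0) (hW.union u hu hu' pb_conn)
      (Or.inr (mem t t0)) ?_)
    rintro w (hw | hw)
    · have h4 : dist (f^[m] u) (f^[m] a) < t := pb_sub hu'
      have h5 := key w hw
      exact mem_ball.2 (by
        change dist (f^[m] w) _ < _
        linarith [dist_triangle (f^[m] w) (f^[m] u) (f^[m] a)])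
    · exact ball_subset_ball (by linarith) (pb_sub hw)
  have c1 := cr (3 * ρ / 4) (by positivity) (by linarith)
  have c2 := cr (ρ / 4) (by positivity) (by linarith)
  rw [show 3 * ρ / 4 + ρ / 4 = ρ by ring] at c1
  have c3 : closure (E (ρ / 4 + ρ / 4)) ⊆ E (3 * ρ / 4) := by
    have c4 : closure (E (ρ / 4 + ρ / 4)) ⊆ f^[m - 0] ⁻¹' closedBall (f^[m] a) (ρ / 4 + ρ / 4) :=
      closure_minimal (fun w hw => mem_preimage.2 (ball_subset_closedBall (pb_sub hw)))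
        (isClosed_closedBall.preimage (hf.iterate (m - 0)))
    exact sub_pb (i := 0) pb_conn.closure (subset_closure (mem _ (by positivity))) fun y hy =>
      closedBall_subset_ball (by linarith) (mem_preimage.1 (c4 hy))
  have op : ∀ t, IsOpen (E t) := fun t => pb_open hf isOpen_ball
  obtain ⟨O, H, V, h3, h4, h5⟩ := cpl_of hf (op (3 * ρ / 4)) pb_conn (mono (by linarith)) c1
    (op (ρ / 4)) (mem _ (by positivity)) (mono (by linarith)) c3 c2
  exact ⟨O, H, V, h3, h4, h5.trans (hG.trans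
    ((ball_subset_ball (ε1.le.trans (min_le_left _ _))).trans hr))⟩

theorem opn_iter (ho : IsOpenMap f) (n : ℕ) : IsOpenMap f^[n] := by
  induction n with
  | zero => exact IsOpenMap.id
  | succ n ih => exact ih.comp ho

theorem lift [CompactSpace X] [LocallyConnectedSpace X] (hf : Continuous f) (ho : IsOpenMap f)
    (a : X) {δ : ℝ} (hδ : 0 < δ) : ∃ N ∈ 𝓝 a, N ⊆ ball a δ ∧ ∀ n x, f^[n] x ∈ N →
      ∃ w ∈ pb f n 0 (ball a δ) x, f^[n] w = a := by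
  refine ⟨_, connectedComponentIn_mem_nhds (ball_mem_nhds a hδ), connectedComponentIn_subset _ _,
    fun n x hx => ?_⟩
  have h1 : a ∈ pb f n n (ball a δ) x := sub_pb isPreconnected_connectedComponentIn hx
    (fun y hy => by rw [Nat.sub_self]; exact connectedComponentIn_subset _ _ hy)
    (mem_connectedComponentIn (mem_ball_self hδ))
  exact pb_surj hf (opn_iter ho _) isOpen_ball n.zero_le le_rfl h1

theorem om_back [CompactSpace X] (hf : Continuous f) {x a : X} (h : a ∈ om f x) :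
    ∃ b ∈ om f x, f b = a := by
  have h1 : MapClusterPt a atTop fun n => f^[n + 1] x := mapClusterPt_iff_frequently.2 fun V hV =>
    frequently_atTop.2 fun n => by
      obtain ⟨m, h1, h2⟩ := frequently_atTop.1 (mem_om.1 h V hV) (n + 1)
      obtain ⟨m, rfl⟩ := Nat.exists_eq_add_of_le' (show 1 ≤ m by omega)
      exact ⟨m, by omega, h2⟩
  obtain ⟨F, F1, F2⟩ := mapClusterPt_iff_ultrafilter.1 h1
  obtain ⟨b, -, hb⟩ := isCompact_univ.ultrafilter_le_nhds (F.map fun n => f^[n] x) (by simp)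
  refine ⟨b, mem_om.2 (mapClusterPt_iff_frequently.1
    (mapClusterPt_iff_ultrafilter.2 ⟨F, F1, hb⟩)), tendsto_nhds_unique
      (hf.continuousAt.tendsto.comp hb) (F2.congr fun n => Function.iterate_succ_apply' f n x)⟩

omit [MetricSpace X] in
theorem last_out {Y : Set X} {w : X} {n : ℕ} (h0 : w ∉ Y) (h1 : f^[n] w ∈ Y) :
    ∃ i < n, f^[i] w ∉ Y ∧ f (f^[i] w) ∈ Y := by
  induction n with
  | zero => exact (h0 h1).elim
  | succ n ih =>
    by_cases h : f^[n] w ∈ Y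
    · obtain ⟨i, h2, h3⟩ := ih h
      exact ⟨i, by omega, h3⟩
    · exact ⟨n, by omega, h, by rwa [Function.iterate_succ_apply'] at h1⟩

theorem cyc [CompactSpace X] [LocallyConnectedSpace X] (hf : Continuous f) (ho : IsOpenMap f)
    (hfin : ∀ y, (f ⁻¹' {y}).Finite) {Y : Set X} (hY : Y.Finite) (hU : USH f Y) {x a : X}
    (hS : BS f a) (ha : a ∈ Y) (ha' : a ∈ om f x) (hx : ∀ k, f^[k] x ∉ Y) :
    ∃ b ∈ om f x, b ∉ Y ∧ f b ∈ Y := by
  by_contra hn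
  have hF : (f ⁻¹' Y \ Y).Finite := (hY.preimage' fun y _ => hfin y).sdiff
  have e1 : ∀ᶠ η in 𝓝[>] (0 : ℝ), ∀ b ∈ f ⁻¹' Y \ Y, ∀ᶠ n in atTop, f^[n] x ∉ ball b η := by
    refine (eventually_all_finite hF).2 fun b hb => ?_
    have h1 : ¬ ∀ V ∈ 𝓝 b, ∃ᶠ n in atTop, f^[n] x ∈ V := fun h => hn ⟨b, mem_om.2 h, hb.2, hb.1⟩
    push Not at h1
    obtain ⟨V, hV, h2⟩ := h1
    obtain ⟨r, r0, hr⟩ := Metric.mem_nhds_iff.1 hV
    filter_upwards [Ioo_mem_nhdsGT r0] with η hη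
    exact h2.mono fun n h3 h4 => h3 (hr (ball_subset_ball hη.2.le h4))
  obtain ⟨η, hη, η0⟩ := (e1.and (show ∀ᶠ η in 𝓝[>] (0 : ℝ), 0 < η from self_mem_nhdsWithin)).exists
  obtain ⟨k, hk⟩ := eventually_atTop.1 ((eventually_all_finite hF).2 hη)
  obtain ⟨r, r0, hr⟩ := Metric.mem_nhds_iff.1 (hY.isClosed.isOpen_compl.mem_nhds (hx k))
  obtain ⟨ρ, ρ0, hρ⟩ := hU
  obtain ⟨n₀, hn₀⟩ := hρ r r0
  obtain ⟨δ, hδ, h0⟩ := hS η η0
  obtain ⟨N, hN, hN', h1⟩ := lift hf ho a (lt_min hδ ρ0)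
  obtain ⟨n, n1, n2⟩ := frequently_atTop.1 (mem_om.1 ha' N hN) (n₀ + k)
  obtain ⟨n, rfl⟩ := Nat.exists_eq_add_of_le' (show k ≤ n by omega)
  rw [Function.iterate_add_apply] at n2
  obtain ⟨w, w1, w2⟩ := h1 n _ n2
  have h2 : w ∉ Y := fun h2 => hr (mem_ball'.1 (hn₀ n (by omega) w h2 (sub_pb (i := 0) pb_conn w1
    (fun v hv => w2 ▸ ball_subset_ball (min_le_right _ _) (pb_sub hv))
    (mem_pb (i := 0) (hN' n2) n.zero_le)))) h2
  obtain ⟨i, i1, i2, i3⟩ := last_out h2 (w2 ▸ ha : f^[n] w ∈ Y)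
  refine hk (i + k) (by omega) _ ⟨i3, i2⟩ ?_
  rw [Function.iterate_add_apply]
  exact h0 (n - i) _ pb_conn (fun v hv => ball_subset_ball (min_le_left _ _) (pb_sub hv)) _
    (mem_pb (hN' n2) i1.le) _ (pb_map hf i.zero_le i1.le w1)

theorem couple [LocallyConnectedSpace X] (hf : Continuous f) (hc : {c | IsCrit f c}.Finite)
    {Y : Set X} (h : USH f Y) (hY : MapsTo f Y Y) {a : X} (hS : BS f a) (ha : a ∈ Y)
    (hp : ∀ n, 0 < n → f^[n] a ≠ a) {U : Set X} (hU : U ∈ 𝓝 a) :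
    ∃ O H V, Cpl f O H V ∧ a ∈ V ∧ H ⊆ U ∧ ∀ x, a ∈ om f x → Good f Oᶜ x →
      ∃ B, ∀ n₀, ∃ T, n₀ ≤ T ∧ f^[T] x ∈ V ∧ cc f T H x ≤ B := by
  have e1 : ∀ᶠ u in 𝓝 a, ∀ c ∈ {c | IsCrit f c}, a ∉ closure (range fun n => f^[n] c) →
      u ∉ closure (range fun n => f^[n] c) := (eventually_all_finite hc).2 fun c _ => by
    by_cases h1 : a ∈ closure (range fun n => f^[n] c)
    · exact Eventually.of_forall fun u h2 => (h2 h1).elim
    · filter_upwards [isClosed_closure.isOpen_compl.mem_nhds h1] with u hu _ using hu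
  obtain ⟨O, H, V, h1, h2, h3⟩ := nice hf h hY hS ha hp (inter_mem hU e1)
  refine ⟨O, H, V, h1, h2, fun u hu => (h3 hu).1, fun x hx hg =>
    h1.count hf hc (fun c hc => ?_) hg (mem_om.1 hx V (h1.oV.mem_nhds h2))⟩
  by_cases h4 : a ∈ closure (range fun n => f^[n] c)
  · obtain ⟨_, y1, s, rfl⟩ := mem_closure_iff.1 h4 V h1.oV h2
    exact Or.inl ⟨s, y1⟩
  · exact Or.inr fun n hn => (h3 hn).2 c hc h4 (subset_closure ⟨n, rfl⟩)

/-- Conical points. -/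
def Cn [SecondCountableTopology X] (f : X → X) (x : X) : Prop :=
  ∃ U ∈ countableBasis X, Three (av f U) ∧ TC f (av f U) x

theorem cn_of [SecondCountableTopology X] {K : Set X} (hK : IsClosed K) (hfK : MapsTo f K K)
    (h3 : Three K) {a x : X} (ha : a ∉ K)
    (h : ∀ U ∈ 𝓝 a, U ⊆ Kᶜ → ∃ H V B, IsOpen H ∧ H ⊆ U ∧ closure V ⊆ H ∧
      ∀ n₀, ∃ T, n₀ ≤ T ∧ f^[T] x ∈ V ∧ cc f T H x ≤ B) : Cn f x := by
  obtain ⟨U, hU, h1, h2⟩ := (isBasis_countableBasis X).mem_nhds_iff.1 (hK.isOpen_compl.mem_nhds ha)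
  obtain ⟨H, V, B, h4, h5, h6, h7⟩ := h U ((isOpen_of_mem_countableBasis hU).mem_nhds h1) h2
  have hs : K ⊆ av f U := fun y hy n hn => h2 hn (hfK.iterate n hy)
  obtain ⟨u, hu, v, hv, w, hw, h8⟩ := h3
  exact ⟨U, hU, ⟨u, hs hu, v, hs hv, w, hs hw, h8⟩, H, V, B, h4,
    disjoint_left.2 fun y hy hy' => hy' 0 (h5 hy), h6, h7⟩

theorem cn_nonrec [CompactSpace X] [LocallyConnectedSpace X] (hf : Continuous f)
    (hc : {c | IsCrit f c}.Finite) {Y : Set X} (hY : IsClosed Y) (hfY : MapsTo f Y Y) {x b : X}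
    (hU : USH f (insert b Y)) (hS : BS f b) (hb : b ∈ om f x) (b1 : b ∉ Y) (b2 : f b ∈ Y) :
    Cn f x := by
  have step : ∀ {Y : Set X} {b : X}, IsClosed Y → MapsTo f Y Y → USH f (insert b Y) → BS f b →
      b ∈ om f x → b ∉ Y → f b ∈ Y → IsClosed (insert b Y) ∧ MapsTo f (insert b Y) (insert b Y) ∧
        ∃ b' ∈ om f x, b' ∉ insert b Y ∧ f b' = b ∧ USH f (insert b' (insert b Y)) ∧ BS f b' := by
    intro Y b hY hfY hU hS hb b1 b2
    obtain ⟨b', h1, rfl⟩ := om_back hf hb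
    refine ⟨isClosed_singleton.union hY, ?_, b', h1, ?_, rfl, hU.ins hf hS (Or.inl rfl),
      BS.back hf 1 hS⟩
    · rintro y (rfl | hy)
      exacts [Or.inr b2, Or.inr (hfY hy)]
    · rintro (h2 | h3)
      exacts [b1 (by rwa [← h2] at b2), b1 (hfY h3)]
  obtain ⟨c1, m1, b', o1, n1, e1, u1, s1⟩ := step hY hfY hU hS hb b1 b2
  obtain ⟨c2, m2, a, o2, n2, e2, u3, s2⟩ := step c1 m1 u1 s1 o1 n1 (Or.inl e1)
  obtain ⟨-, m3, -⟩ := step c2 m2 u3 s2 o2 n2 (Or.inl e2)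
  have hor : ∀ n, f^[n + 1] a ∈ insert b' (insert b Y) := fun n => m2.iterate n (Or.inl e2)
  refine cn_of c2 m2 ⟨b', Or.inl rfl, b, Or.inr (Or.inl rfl), f b, Or.inr (Or.inr b2),
    fun h => n1 (Or.inl h), fun h => n1 (Or.inr (h ▸ b2)), fun h => b1 (h ▸ b2)⟩ n2
    fun U hU hUK => ?_
  obtain ⟨U', h1, h2, h3⟩ := exists_mem_nhds_isClosed_subset hU
  obtain ⟨O, H, V, h4, h5, h6, h7⟩ := couple hf hc u3 m3 s2 (Or.inl rfl) (fun n hn h => by
    obtain ⟨n, rfl⟩ := Nat.exists_eq_add_of_le' (show 1 ≤ n from hn)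
    exact n2 (h ▸ hor n)) h1
  obtain ⟨B, hB⟩ := h7 x o2 (h4.good_new hf hc (mem_om.1 o2 V (h4.oV.mem_nhds h5)) fun L => by
    have h8 : ∀ᶠ u in 𝓝 a, ∀ i ∈ Iic L, f^[i + 1] u ∉ U' :=
      (eventually_all_finite (finite_Iic L)).2 fun i _ => (hf.iterate (i + 1)).continuousAt
        (h2.isOpen_compl.mem_nhds fun h => hUK (h3 h) (hor i))
    obtain ⟨p, hp⟩ := (mem_om.1 o2 _ h8).exists
    refine ⟨p + 1, fun i hi h => hp i hi (h6 ?_)⟩
    rwa [Function.iterate_succ_apply', ← Function.iterate_succ_apply] at h)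
  exact ⟨H, V, B, h4.oH, h6.trans h3, h4.cl, hB⟩

omit [MetricSpace X] in
theorem orb_maps (a : X) : MapsTo f (range fun i => f^[i] a) (range fun i => f^[i] a) := by
  rintro _ ⟨i, rfl⟩
  exact ⟨i + 1, Function.iterate_succ_apply' f i a⟩

omit [MetricSpace X] in
theorem orb_fin {a : X} {n : ℕ} (n0 : 0 < n) (hn : f^[n] a = a) : (range fun i => f^[i] a).Finite :=
  ((finite_Iio n).image fun i => f^[i] a).subset (by
    rintro _ ⟨i, rfl⟩
    exact ⟨i % n, Nat.mod_lt i n0, Function.IsPeriodicPt.iterate_mod_apply hn i⟩)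

theorem triple (hs : Function.Surjective f) {p p₁ : X} (hp : f p = p) (q1 : p₁ ≠ p)
    (e1 : f p₁ = p) : ∃ K : Set X, IsClosed K ∧ MapsTo f K K ∧ Three K ∧ ∀ a ∈ K, f^[2] a = p := by
  obtain ⟨p₂, e2⟩ := hs p₁
  refine ⟨{p, p₁, p₂}, (toFinite _).isClosed, ?_, ⟨p, Or.inl rfl, p₁, Or.inr (Or.inl rfl), p₂,
    Or.inr (Or.inr rfl), q1.symm, fun h => q1 (by rw [← e2, ← h, hp]),
    fun h => q1 (by rw [← e1, h, e2, h])⟩, ?_⟩
  · rintro y (rfl | rfl | rfl)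
    exacts [Or.inl hp, Or.inl e1, Or.inr (Or.inl e2)]
  · rintro y (rfl | rfl | rfl) <;> simp [hp, e1, e2]

variable [CompactSpace X] [LocallyConnectedSpace X]

theorem cn_per (hf : Continuous f) (ho : IsOpenMap f) (hfin : ∀ y, (f ⁻¹' {y}).Finite)
    (hc : {c | IsCrit f c}.Finite) {K : Set X} {p : X} (k1 : IsClosed K) (k2 : MapsTo f K K)
    (k3 : Three K) (k4 : ∀ a ∈ K, f^[2] a = p) {x a : X} {n : ℕ} (n0 : 0 < n) (hn : f^[n] a = a)
    (hS : BS f a) (hU : USH f (range fun i => f^[i] a)) (hcY : ∀ i, ¬ IsCrit f (f^[i] a))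
    (ha : a ∈ om f x) (hx : ∀ m, f^[m] x ≠ p) : Cn f x := by
  have ret : ∀ i, f^[i * n - i] (f^[i] a) = a := fun i => by
    rw [iter_iter (Nat.le_mul_of_pos_right i n0), mul_comm, Function.iterate_mul,
      Function.iterate_fixed hn]
  have z1 := orb_fin n0 hn
  by_cases h1 : ∀ k, f^[k] x ∉ range fun i => f^[i] a
  · obtain ⟨b, b0, b1, i, b2⟩ := cyc hf ho hfin z1 hU hS ⟨0, rfl⟩ ha h1
    have h2 : BS f (f b) := BS.back hf (i * n - i) (by rw [← b2, ret]; exact hS)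
    exact cn_nonrec hf hc z1.isClosed (orb_maps a) (hU.ins hf h2 ⟨i, b2⟩) (BS.back hf 1 h2) b0 b1
      ⟨i, b2⟩
  push Not at h1
  obtain ⟨k, hk⟩ : ∃ k, f^[k] x = a := by
    obtain ⟨k, i, hi⟩ := h1
    exact ⟨i * n - i + k, by rw [Function.iterate_add_apply, ← hi, ret]⟩
  refine cn_of k1 k2 k3 (a := a) (fun h => hx (2 + k) (by
    rw [Function.iterate_add_apply, hk, k4 a h])) fun U hU' _ => ?_
  obtain ⟨η, η0, hη⟩ := z1.isCompact.exists_thickening_subset_open hc.isClosed.isOpen_compl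
    (by rintro _ ⟨i, rfl⟩; exact hcY i)
  obtain ⟨δ, hδ, h4⟩ := hS η η0
  obtain ⟨r, r0, hr⟩ := Metric.mem_nhds_iff.1 (inter_mem hU' (ball_mem_nhds a hδ))
  refine ⟨ball a r, ball a (r / 2), k, isOpen_ball, fun u hu => (hr hu).1,
    closure_ball_subset_closedBall.trans (closedBall_subset_ball (half_lt_self r0)), fun n₀ => ?_⟩
  have h5 : f^[n * n₀ + k] x = a := by
    rw [Function.iterate_add_apply, hk, Function.iterate_mul, Function.iterate_fixed hn]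
  refine ⟨n * n₀ + k, by nlinarith, h5.symm ▸ mem_ball_self (half_pos r0),
    (ncard_le_ncard (t := Iio k) ?_ (finite_Iio k)).trans (by simp)⟩
  rintro i ⟨i1, c, c1, c2⟩
  by_contra h6
  obtain ⟨j, rfl⟩ := Nat.exists_eq_add_of_le' (not_lt.1 h6)
  refine hη (mem_thickening_iff.2 ⟨_, ⟨j, rfl⟩, ?_⟩) c2
  have h7 := h4 _ _ pb_conn (fun w hw => (hr (pb_sub hw)).2) c c1 _
    (mem_pb (h5.symm ▸ mem_ball_self r0) i1.le)
  rwa [Function.iterate_add_apply, hk] at h7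

theorem conical' (hf : Continuous f) (hc : {c | IsCrit f c}.Finite) {K : Set X} {p : X}
    (hp : f p = p) (k1 : IsClosed K) (k2 : MapsTo f K K) (k3 : Three K)
    (k4 : ∀ a ∈ K, f^[2] a = p) {Y : Set X} (hY : IsClosed Y) (hfY : MapsTo f Y Y) {q : X}
    (hq : q ∈ Y) {x a : X} (hx : Y ⊆ om f x) (ha : a ∈ om f x) (haY : a ∉ Y) (hS : BS f a)
    (hU : USH f (range fun i => f^[i] a)) (h2 : ∀ n, 0 < n → f^[n] a ≠ a) : Cn f x := by
  by_cases aK : a ∈ K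
  · have h3 : f (f a) = p := k4 a aK
    refine cn_nonrec (Y := {f a, p}) hf hc (toFinite _).isClosed ?_ (hU.mono ?_) hS ha ?_
      (Or.inl rfl)
    · rintro y (rfl | rfl)
      exacts [Or.inr h3, Or.inr hp]
    · rintro y (rfl | rfl | rfl)
      exacts [⟨0, rfl⟩, ⟨1, rfl⟩, ⟨2, h3⟩]
    · rintro (h | h)
      exacts [h2 1 one_pos h.symm, h2 2 two_pos (h3.trans h.symm)]
  refine cn_of k1 k2 k3 aK fun U hU' _ => ?_
  obtain ⟨U', u1, u2, u3⟩ := exists_mem_nhds_isClosed_subset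
    (inter_mem hU' (hY.isOpen_compl.mem_nhds haY))
  obtain ⟨O, H, V, h4, h5, h6, h7⟩ := couple hf hc hU (orb_maps a) hS ⟨0, rfl⟩ h2 u1
  obtain ⟨B, hB⟩ := h7 x ha (h4.good_new hf hc (mem_om.1 ha V (h4.oV.mem_nhds h5)) fun L => by
    have h8 : ∀ᶠ u in 𝓝 q, ∀ i ∈ Iic L, f^[i] u ∉ U' :=
      (eventually_all_finite (finite_Iic L)).2 fun i _ => (hf.iterate i).continuousAt
        (u2.isOpen_compl.mem_nhds fun h => (u3 h).2 (hfY.iterate i hq))
    exact (mem_om.1 (hx hq) _ h8).exists.imp fun p hp i hi h => hp i hi (h6 h))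
  exact ⟨H, V, B, h4.oH, fun u hu => (u3 (h6 hu)).1, h4.cl, hB⟩

theorem conical (hf : Continuous f) (hc : {c | IsCrit f c}.Finite) {K : Set X} {p : X}
    (hp : f p = p) (k1 : IsClosed K) (k2 : MapsTo f K K) (k3 : Three K)
    (k4 : ∀ a ∈ K, f^[2] a = p) {Y : Set X} (hY : IsClosed Y) (hfY : MapsTo f Y Y)
    (hcY : ∀ c ∈ Y, ¬ IsCrit f c) {x a : X} (hxY : Y ⊆ om f x) (ha : a ∈ Y) (hS : BS f a)
    (hU : USH f (range fun i => f^[i] a)) (h2 : ∀ n, 0 < n → f^[n] a ≠ a) : Cn f x := by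
  have hx := hxY ha
  by_cases h3 : a ∈ om f a
  swap
  · refine conical' (Y := closure (range fun i => f^[i + 1] a)) hf hc hp k1 k2 k3 k4
      isClosed_closure (MapsTo.closure ?_ hf) (subset_closure ⟨0, rfl⟩)
      ((closure_minimal ?_ hY).trans hxY) hx (fun h => h3 ?_) hS hU h2
    · rintro _ ⟨i, rfl⟩
      exact ⟨i + 1, Function.iterate_succ_apply' f (i + 1) a⟩
    · rintro _ ⟨i, rfl⟩
      exact hfY.iterate _ ha
    · refine mem_om.2 fun V hV => frequently_atTop.2 fun n => ?_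
      have h4 : ∀ᶠ u in 𝓝 a, ∀ i ∈ Iio n, u ≠ f^[i + 1] a :=
        (eventually_all_finite (finite_Iio n)).2 fun i _ => eventually_ne_nhds (h2 _ i.succ_pos).symm
      obtain ⟨_, y1, i, rfl⟩ := mem_closure_iff_nhds.1 h _ (inter_mem hV h4)
      exact ⟨i + 1, (not_lt.1 fun h5 : i < n => y1.2 i h5 rfl).trans i.le_succ, y1.1⟩
  have aK : a ∉ K := fun h => by
    have h5 : a ≠ p := fun h => h2 1 one_pos (by rw [h]; exact hp)
    obtain ⟨n, n1, n2⟩ := frequently_atTop.1 (mem_om.1 h3 _ (isOpen_ne.mem_nhds h5)) 2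
    obtain ⟨n, rfl⟩ := Nat.exists_eq_add_of_le' n1
    rw [Function.iterate_add_apply, k4 a h] at n2
    exact n2 (Function.iterate_fixed hp n)
  refine cn_of k1 k2 k3 aK fun U hU' _ => ?_
  obtain ⟨η, η0, hη⟩ := hY.isCompact.exists_thickening_subset_open hc.isClosed.isOpen_compl hcY
  obtain ⟨δ, hδ, h4⟩ := hS η η0
  obtain ⟨O, H, V, h5, h6, h7, h8⟩ := couple hf hc hU (orb_maps a) hS ⟨0, rfl⟩ h2
    (inter_mem hU' (ball_mem_nhds a hδ))
  have h9 := h5.miss (mem_om.1 h3 V (h5.oV.mem_nhds h6))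
  have hg : Good f Oᶜ a := ⟨h9, 0, Frequently.of_forall fun N => by
    rw [Nat.le_zero, ncard_eq_zero (Ind.fin_idx N _), eq_empty_iff_forall_notMem]
    rintro i ⟨i1, c, c1, c2⟩
    obtain ⟨k, hk⟩ := h5.ent (f^[N - i] '' piece f Oᶜ (N - i) (f^[i] a))
      (isPreconnected_connectedComponentIn.image _ (hf.iterate _).continuousOn) (by
        rintro _ ⟨y, hy, rfl⟩
        exact not_not.1 (connectedComponentIn_subset (f^[N - i] ⁻¹' Oᶜ)ᶜ _ hy))
    refine hη (mem_thickening_iff.2 ⟨_, hfY.iterate i ha, h4 (k + (N - i)) _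
      isPreconnected_connectedComponentIn (fun w hw => ?_) c c1 _
      (mem_connectedComponentIn ?_)⟩) c2
    · rw [Function.iterate_add_apply]
      exact (h7 (hk _ ⟨w, hw, rfl⟩)).2
    · rw [mem_compl_iff, mem_preimage, iter_iter i1.le]
      exact h9 N⟩
  obtain ⟨B, hB⟩ := h8 x hx (hg.of_visits hf h5.maps hc fun N =>
    (om_piece hf h5.oO.isClosed_compl hx h9 N).exists)
  exact ⟨H, V, B, h5.oH, fun u hu => (h7 hu).1, h5.cl, hB⟩

end Pool.Agent.MP_255345_an.Bs
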