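import Pool.Agent.Mg.F255345.Gb3e356

/-! Nice couples from backward stability. -/

open Set Filter Topology Metric TopologicalSpace

namespace Pool.Agent.MP_255345_an.Bs

section top

variable {X : Type} [TopologicalSpace X] {f : X → X}

/-- Pull-backs of `G` that meet `A` lie in `B`. -/
def Cross (f : X → X) (G A B : Set X) : Prop :=
  ∀ n W, 0 < n → IsPreconnected W → (∀ w ∈ W, f^[n] w ∈ G) → (W ∩ A).Nonempty → W ⊆ B

/-- A nice couple. -/
structure Cpl (f : X → X) (O H V : Set X) : Prop where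
  oO : IsOpen O
  back : ∀ x, f x ∈ O → x ∈ O
  oV : IsOpen V
  oH : IsOpen H
  HO : H ⊆ O
  cl : closure V ⊆ H
  n2 : ∀ n W, 0 < n → IsPreconnected W → (∀ w ∈ W, f^[n] w ∈ O) → (W ∩ V).Nonempty → W ⊆ V
  ent : ∀ W, IsPreconnected W → W ⊆ O → ∃ k, ∀ w ∈ W, f^[k] w ∈ H

theorem comp_open [LocallyConnectedSpace X] {T : Set X} (hT : IsOpen T) (p : Set X → Prop) :
    IsOpen {x | x ∈ T ∧ p (connectedComponentIn T x)} := by
  refine isOpen_iff_mem_nhds.2 fun x hx => mem_of_superset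
    (hT.connectedComponentIn.mem_nhds (mem_connectedComponentIn hx.1)) fun y hy => ?_
  exact ⟨connectedComponentIn_subset _ _ hy, connectedComponentIn_eq hy ▸ hx.2⟩

omit [TopologicalSpace X] in
theorem first_hit {S W : Set X} {T : ℕ → Prop} (hT : ∀ e k, T e → T (e - k))
    (h : ∀ w ∈ W, ∃ e, T e ∧ f^[e] w ∈ S) (hn : W.Nonempty) :
    ∃ k, (f^[k] '' W ∩ S).Nonempty ∧ ∀ w ∈ W, ∃ e, T e ∧ f^[e] (f^[k] w) ∈ S := by
  classical
  have ex : ∃ k, (f^[k] '' W ∩ S).Nonempty := by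
    obtain ⟨w, hw⟩ := hn
    obtain ⟨e, -, he⟩ := h w hw
    exact ⟨e, _, ⟨w, hw, rfl⟩, he⟩
  refine ⟨Nat.find ex, Nat.find_spec ex, fun w hw => ?_⟩
  obtain ⟨e, h1, he⟩ := h w hw
  have h2 : Nat.find ex ≤ e := Nat.find_min' ex ⟨_, ⟨w, hw, rfl⟩, he⟩
  exact ⟨e - Nat.find ex, hT _ _ h1, by rwa [iter_iter h2]⟩

theorem trunc_sub [LocallyConnectedSpace X] (hf : Continuous f) {S G : Set X} (hS : IsOpen S)
    (hSG : S ⊆ G) (hc : Cross f G S G) (m : ℕ) : ∀ W, IsPreconnected W →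
      (∀ w ∈ W, ∃ e, e ≤ m ∧ f^[e] w ∈ S) → (W ∩ S).Nonempty → W ⊆ G := by
  induction m with
  | zero =>
    intro W _ h _ w hw
    obtain ⟨e, h1, h2⟩ := h w hw
    obtain rfl := Nat.le_zero.1 h1
    exact hSG h2
  | succ m ih =>
    intro W hW h hn
    have hT : IsOpen {x | ∃ e, e ≤ m ∧ f^[e] (f x) ∈ S} := by
      simp only [ofPred_exists]
      exact isOpen_iUnion fun e => isOpen_const.inter (hS.preimage ((hf.iterate e).comp hf))
    set T := {x | ∃ e, e ≤ m ∧ f^[e] (f x) ∈ S} with hT'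
    have h1 : W ⊆ S ∪ {x | x ∈ T ∧ (connectedComponentIn T x ∩ S).Nonempty} := by
      refine hW.subset_left_of_subset_union
        (hS.union (comp_open hT fun Y => (Y ∩ S).Nonempty))
        (comp_open hT fun Y => ¬ (Y ∩ S).Nonempty) (disjoint_left.2 ?_) (fun w hw => ?_)
        (hn.mono (inter_subset_inter_right _ subset_union_left))
      · rintro x (hx | hx) hx'
        · exact hx'.2 ⟨x, mem_connectedComponentIn hx'.1, hx⟩
        · exact hx'.2 hx.2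
      · obtain ⟨e, h1, h2⟩ := h w hw
        rcases e with _ | e
        · exact Or.inl (Or.inl h2)
        · have h3 : w ∈ T := ⟨e, by omega, h2⟩
          by_cases h4 : (connectedComponentIn T w ∩ S).Nonempty
          exacts [Or.inl (Or.inr ⟨h3, h4⟩), Or.inr ⟨h3, h4⟩]
    intro w hw
    rcases h1 hw with h2 | ⟨h2, h3⟩
    · exact hSG h2
    have hY : IsPreconnected (f '' connectedComponentIn T w) :=
      isPreconnected_connectedComponentIn.image _ hf.continuousOn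
    obtain ⟨k, k1, k2⟩ := first_hit (f := f) (S := S) (W := f '' connectedComponentIn T w)
      (T := (· ≤ m)) (fun e k h => by omega)
      (by rintro _ ⟨y, hy, rfl⟩; exact connectedComponentIn_subset T w hy)
      ⟨_, w, mem_connectedComponentIn h2, rfl⟩
    have h4 := ih _ (hY.image _ (hf.iterate k).continuousOn)
      (by rintro _ ⟨y, hy, rfl⟩; exact k2 y hy) k1
    exact hc (k + 1) _ k.succ_pos isPreconnected_connectedComponentIn
      (fun y hy => h4 ⟨_, ⟨y, hy, rfl⟩, rfl⟩) h3 (mem_connectedComponentIn h2)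

theorem full_sub [LocallyConnectedSpace X] (hf : Continuous f) {S G : Set X} (hS : IsOpen S)
    (hSG : S ⊆ G) (hc : Cross f G S G) {W : Set X} (hW : IsPreconnected W)
    (h : ∀ w ∈ W, ∃ e, f^[e] w ∈ S) (hn : (W ∩ S).Nonempty) : W ⊆ G := by
  let T : ℕ → Set X := fun m => {x | ∃ e, e ≤ m ∧ f^[e] x ∈ S}
  have hT : ∀ m, IsOpen (T m) := fun m => by
    simp only [T, ofPred_exists]
    exact isOpen_iUnion fun e => isOpen_const.inter (hS.preimage (hf.iterate e))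
  have mono : ∀ {m m'}, m ≤ m' → T m ⊆ T m' := fun h x ⟨e, h1, h2⟩ => ⟨e, h1.trans h, h2⟩
  have h1 : W ⊆ ⋃ m, {x | x ∈ T m ∧ (connectedComponentIn (T m) x ∩ S).Nonempty} := by
    refine hW.subset_of_closure_inter_subset
      (isOpen_iUnion fun m => comp_open (hT m) fun Y => (Y ∩ S).Nonempty) ?_ ?_
    · obtain ⟨x, hx, hx'⟩ := hn
      have h2 : x ∈ T 0 := ⟨0, le_rfl, hx'⟩
      exact ⟨x, hx, mem_iUnion.2 ⟨0, h2, x, mem_connectedComponentIn h2, hx'⟩⟩
    · rintro x ⟨h2, hx⟩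
      obtain ⟨e, he⟩ := h x hx
      have h3 : x ∈ T e := ⟨e, le_rfl, he⟩
      obtain ⟨y, y1, y2⟩ := mem_closure_iff.1 h2 _ (hT e).connectedComponentIn
        (mem_connectedComponentIn h3)
      obtain ⟨m, -, y3⟩ := mem_iUnion.1 y2
      refine mem_iUnion.2 ⟨max e m, mono (le_max_left _ _) h3, y3.mono
        (inter_subset_inter_left _ ?_)⟩
      rw [connectedComponentIn_eq (connectedComponentIn_mono _ (mono (le_max_left e m)) y1)]
      exact connectedComponentIn_mono _ (mono (le_max_right _ _))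
  intro w hw
  obtain ⟨m, h2, h3⟩ := mem_iUnion.1 (h1 hw)
  exact trunc_sub hf hS hSG hc m _ isPreconnected_connectedComponentIn
    (connectedComponentIn_subset (T m) w) h3 (mem_connectedComponentIn h2)

theorem cpl_of [LocallyConnectedSpace X] (hf : Continuous f) {S G A B : Set X} {a : X}
    (hS : IsOpen S) (hSc : IsPreconnected S) (hSG : S ⊆ G) (hc : Cross f G S G) (hA : IsOpen A)
    (ha : a ∈ A) (hAB : A ⊆ B) (hB : closure B ⊆ S) (hc' : Cross f G A B) :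
    ∃ O H V, Cpl f O H V ∧ a ∈ V ∧ H ⊆ G := by
  have hO : IsOpen {x | ∃ e, f^[e] x ∈ S} := by
    simp only [ofPred_exists]
    exact isOpen_iUnion fun e => hS.preimage (hf.iterate e)
  set O := {x | ∃ e, f^[e] x ∈ S} with hO'
  have aS : a ∈ S := hB (subset_closure (hAB ha))
  have SO : S ⊆ O := fun x hx => ⟨0, hx⟩
  have SH : S ⊆ connectedComponentIn O a := hSc.subset_connectedComponentIn aS SO
  have HG : connectedComponentIn O a ⊆ G := full_sub hf hS hSG hc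
    isPreconnected_connectedComponentIn (connectedComponentIn_subset O a) ⟨a, SH aS, aS⟩
  have ent : ∀ W, IsPreconnected W → W ⊆ O → ∃ k, ∀ w ∈ W, f^[k] w ∈ connectedComponentIn O a := by
    intro W hW h
    rcases W.eq_empty_or_nonempty with rfl | hn
    · exact ⟨0, fun w hw => hw.elim⟩
    obtain ⟨k, ⟨y, y1, y2⟩, k2⟩ := first_hit (f := f) (S := S) (W := W) (T := fun _ => True)
      (fun _ _ _ => trivial) (fun w hw => (h hw).imp fun e he => ⟨trivial, he⟩) hn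
    refine ⟨k, fun w hw => ?_⟩
    rw [connectedComponentIn_eq (SH y2)]
    refine (hW.image _ (hf.iterate k).continuousOn).subset_connectedComponentIn y1 ?_ ⟨w, hw, rfl⟩
    rintro _ ⟨v, hv, rfl⟩
    exact (k2 v hv).imp fun e he => he.2
  have hT : IsOpen (f ⁻¹' O) := hO.preimage hf
  refine ⟨O, _, A ∪ {x | x ∈ f ⁻¹' O ∧ (connectedComponentIn (f ⁻¹' O) x ∩ A).Nonempty},
    ⟨hO, fun x ⟨e, he⟩ => ⟨e + 1, he⟩, hA.union (comp_open hT fun Y => (Y ∩ A).Nonempty),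
      hO.connectedComponentIn, connectedComponentIn_subset O a,
      (closure_mono ?_).trans (hB.trans SH), ?_, ent⟩, Or.inl ha, HG⟩
  · rintro w (hw | ⟨h2, h3⟩)
    · exact hAB hw
    obtain ⟨k, hk⟩ := ent (f '' connectedComponentIn (f ⁻¹' O) w)
      (isPreconnected_connectedComponentIn.image _ hf.continuousOn)
      (by rintro _ ⟨y, hy, rfl⟩; exact connectedComponentIn_subset (f ⁻¹' O) w hy)
    exact hc' (k + 1) _ k.succ_pos isPreconnected_connectedComponentIn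
      (fun y hy => HG (hk _ ⟨y, hy, rfl⟩)) h3 (mem_connectedComponentIn h2)
  · rintro n W hn hW h ⟨u, hu, hu'⟩ w hw
    obtain ⟨n, rfl⟩ := Nat.exists_eq_add_of_le' (show 1 ≤ n from hn)
    have h1 : W ⊆ f ⁻¹' O := fun v hv => by
      obtain ⟨e, he⟩ := h v hv
      exact ⟨e + n, by rwa [Function.iterate_add_apply]⟩
    have h2 := hW.subset_connectedComponentIn hw h1 hu
    refine Or.inr ⟨h1 hw, ?_⟩
    rcases hu' with h3 | ⟨-, h3⟩
    · exact ⟨u, h2, h3⟩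
    · rwa [connectedComponentIn_eq h2]

theorem Cpl.maps {O H V : Set X} (h : Cpl f O H V) : MapsTo f Oᶜ Oᶜ := fun x hx h1 =>
  hx (h.back x h1)

theorem Cpl.miss {O H V : Set X} (h : Cpl f O H V) {x : X} (hx : ∃ᶠ n in atTop, f^[n] x ∈ V)
    (n : ℕ) : f^[n] x ∉ Oᶜ := by
  obtain ⟨m, h1, h2⟩ := frequently_atTop.1 hx n
  exact avoid h.maps (fun h3 => h3 (h.HO (h.cl (subset_closure h2)))) h1

/-- Points whose orbit has pull-backs of bounded criticality of a fixed open set off `K`. -/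
def TC (f : X → X) (K : Set X) (x : X) : Prop :=
  ∃ (H V : Set X) (B : ℕ), IsOpen H ∧ Disjoint H K ∧ closure V ⊆ H ∧
    ∀ n₀, ∃ T, n₀ ≤ T ∧ f^[T] x ∈ V ∧ cc f T H x ≤ B

theorem Cpl.count (hf : Continuous f) (hc : {c | IsCrit f c}.Finite) {O H V : Set X}
    (h : Cpl f O H V) (hd : ∀ c, IsCrit f c → (∃ s, f^[s] c ∈ V) ∨ ∀ n, f^[n] c ∉ H) {x : X}
    (hg : Good f Oᶜ x) (hx : ∃ᶠ n in atTop, f^[n] x ∈ V) :
    ∃ B, ∀ n₀, ∃ T, n₀ ≤ T ∧ f^[T] x ∈ V ∧ cc f T H x ≤ B := by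
  classical
  obtain ⟨-, B, hB⟩ := hg
  obtain ⟨S, hS⟩ : ∃ S, ∀ c, IsCrit f c → (∃ s, f^[s] c ∈ V) → ∃ s ≤ S, f^[s] c ∈ V := by
    obtain ⟨S, hS⟩ := eventually_atTop.1 ((eventually_all_finite hc).2 fun c _ =>
      show ∀ᶠ S in atTop, (∃ s, f^[s] c ∈ V) → ∃ s ≤ S, f^[s] c ∈ V from by
        by_cases h1 : ∃ s, f^[s] c ∈ V
        · obtain ⟨s, hs⟩ := h1
          filter_upwards [eventually_ge_atTop s] with S hS _ using ⟨s, hS, hs⟩
        · exact Eventually.of_forall fun S h2 => (h1 h2).elim)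
    exact ⟨S, hS S le_rfl⟩
  refine ⟨B + S, fun n₀ => ?_⟩
  obtain ⟨N, hN, hn₀⟩ := (hB.and_eventually (eventually_ge_atTop n₀)).exists
  have ex := frequently_atTop.1 hx N
  obtain ⟨T, ⟨t1, t2⟩, t3⟩ : ∃ T, (T ≥ N ∧ f^[T] x ∈ V) ∧ ∀ i < T, ¬ (i ≥ N ∧ f^[i] x ∈ V) :=
    ⟨Nat.find ex, Nat.find_spec ex, fun i hi => Nat.find_min ex hi⟩
  have hT : f^[T] x ∈ H := h.cl (subset_closure t2)
  have sub : {i | i < T ∧ ∃ c ∈ pb f T i H x, IsCrit f c} ⊆
      {i | i < N ∧ ∃ c ∈ piece f Oᶜ (N - i) (f^[i] x), IsCrit f c} ∪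
        (Finset.Ico (T - S) T : Set ℕ) := by
    rintro i ⟨hi, c, c1, c2⟩
    by_cases h1 : i < N
    · have h2 : c ∈ piece f Oᶜ (T - i) (f^[i] x) :=
        pb_mono (V := Oᶜᶜ) (fun y hy h3 => h3 (h.HO hy)) c1
      exact Or.inl ⟨h1, c, Puz.anti h.maps (by omega) _ h2, c2⟩
    obtain ⟨s, s1, s2⟩ := hS c c2 ((hd c c2).resolve_right fun h2 => h2 _ (pb_sub c1))
    refine Or.inr ?_
    rw [Finset.coe_Ico]
    refine ⟨?_, hi⟩
    by_contra h2
    have h3 : i + s < T := by omega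
    have h4 := pb_map hf (Nat.le_add_right i s) h3.le c1
    rw [Nat.add_sub_cancel_left] at h4
    exact t3 _ h3 ⟨by omega, h.n2 (T - (i + s)) _ (by omega) pb_conn
      (fun w hw => h.HO (pb_sub hw)) ⟨_, h4, s2⟩ (mem_pb hT h3.le)⟩
  refine ⟨T, by omega, t2, (ncard_le_ncard sub
    ((Ind.fin_idx N _).union (Finset.finite_toSet _))).trans ((ncard_union_le _ _).trans
      (add_le_add hN ?_))⟩
  rw [ncard_coe_finset, Nat.card_Ico]
  omega

theorem Cpl.good_new (hf : Continuous f) (hc : {c | IsCrit f c}.Finite) {O H V : Set X}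
    (h : Cpl f O H V) {x : X} (hx : ∃ᶠ n in atTop, f^[n] x ∈ V)
    (hl : ∀ L, ∃ p, ∀ i ≤ L, f^[i] (f^[p] x) ∉ H) : Good f Oᶜ x := by
  classical
  refine ⟨h.miss hx, {c | IsCrit f c}.ncard, frequently_atTop.2 fun n₀ => ?_⟩
  choose k hk using fun j => h.ent (piece f Oᶜ 0 (f^[j] x)) isPreconnected_connectedComponentIn
    fun y hy => not_not.1 (connectedComponentIn_subset (f^[0] ⁻¹' Oᶜ)ᶜ _ hy)
  obtain ⟨p, hp⟩ := hl ((Finset.range n₀).sup k)
  have h0 : f^[p] x ∈ piece f Oᶜ 0 (f^[p] x) := mem_connectedComponentIn (h.miss hx p)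
  have ex : ∃ m, f^[m] x ∈ piece f Oᶜ 0 (f^[p] x) := ⟨p, h0⟩
  obtain ⟨m, hm, hmin⟩ : ∃ m, f^[m] x ∈ piece f Oᶜ 0 (f^[p] x) ∧
      ∀ i < m, f^[i] x ∉ piece f Oᶜ 0 (f^[p] x) :=
    ⟨Nat.find ex, Nat.find_spec ex, fun i hi => Nat.find_min ex hi⟩
  have e1 : piece f Oᶜ 0 (f^[p] x) = piece f Oᶜ 0 (f^[m] x) := connectedComponentIn_eq hm
  have h2 := Puz.first hf h.maps hc hm hmin
  rw [Nat.add_zero] at h2
  refine ⟨m, not_lt.1 fun h1 => hp (k m) (Finset.le_sup (f := k) (Finset.mem_range.2 h1)) ?_, h2⟩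
  rw [e1] at h0
  exact hk m _ h0

end top

end Pool.Agent.MP_255345_an.Bs
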